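import Pool.Agent.H93.AHD.Defs

/-!
# AHD.Bst : first consequences of maximality

`exists_best`: as `exists_maxF` (H35/AHC/Core), maximize `({v | Good X r b v}).ncard`.
`nogood`: being good' is invariant under the old steps (`Conn.mem_iff`): if `r' u = r u` then `Conn r' b' u (r u)`; if `r' u ≠ r u` then also `r' (r u) ≠ r (r u) = u`, so both are good' by `h`. So old
good vertices are good', `best.max` gives `Good X r b c`.
`mem_X`: otherwise `u` itself shows that `c` is good. `no2`, `no2r`: `merge2` (H35/AHC/Merge) for the graphs `R`, `BX B X` (for `no2r` with the colours exchanged, `Conn.swap`): all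
connections are kept and `c` gets connected to the good vertex `x`. `end_no`: `no2` and `BX_cross`. `good_r`, `good_b`: one more step.
`sim_of`: `X v`, `X u0`, `v u0` is neither red nor blue (`BX_in`). `Avd_self`: `no2r` for `r z`, `r u`; `Bvd_self`: `no2` for `b z`, `b u`.
`noB`: `BB = {u | Conn r b c u ∧ (BX B X).Adj (b z) (b u)}` and its image under `r` are subsets of the component, so they meet: some `u` in `BB` with `r u` in `BB`. The pairs `{v, r v} × {u, r u}` are not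
blue (`Bvd`); by `no2r`: `Sim v u ∨ Sim (r v) (r u)`, `Sim v (r u) ∨ Sim (r v) u`; contradiction as in `Sit.T0` (H35/AHC/Core). `noA`: the same with `b` and `RR`; `noAe`: some `u` with `u`, `b u` in
`RR`; `e` is similar to both (`end_no`, `Avd`), but `u`, `b u` are adjacent.
-/

set_option autoImplicit false

namespace Pool.Agent.H93.AHD

open Pool.Agent.H35.AHC

variable {V : Type*} [Finite V] {R B : SimpleGraph V} {X : V → Prop} {r b : V → V} {c : V}

theorem exists_best (hr : IsPM R r) (hb : IsPM (BX B X) b) : ∃ r' b', Best R B X r' b' := by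
  classical
  let S : Set ((V → V) × (V → V)) := {p | IsPM R p.1 ∧ IsPM (BX B X) p.2}
  have hS : S.Nonempty := ⟨(r, b), hr, hb⟩
  obtain ⟨p, hp, hmax⟩ := Set.exists_max_image S
    (fun p => ({v : V | Good X p.1 p.2 v} : Set V).ncard) S.toFinite hS
  refine ⟨p.1, p.2, hp.1, hp.2, fun r' b' hr' hb' hle v hv => ?_⟩
  have h1 := hmax (r', b') ⟨hr', hb'⟩
  have h2 : ({v : V | Good X p.1 p.2 v} : Set V) ⊆ {v : V | Good X r' b' v} := fun q hq => hle _ hq
  have h3 := Set.eq_of_subset_of_ncard_le h2 h1 (Set.toFinite _)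
  have h4 : v ∈ ({v : V | Good X r' b' v} : Set V) := hv
  rw [← h3] at h4
  exact h4

theorem Cfg.nogood (S : Cfg R B X r b c) {r' b' : V → V} (hr' : IsPM R r')
    (hb' : IsPM (BX B X) b') (h : ∀ v, (r' v ≠ r v ∨ b' v ≠ b v) → Good X r' b' v)
    (hc : Good X r' b' c) : False := by
  have hr := S.best.pr
  have hb := S.best.pb
  refine S.ng (S.best.max r' b' hr' hb' ?_ c hc)
  rintro v ⟨y, hy, hvy⟩
  have stepr : ∀ u, Good X r' b' u ↔ Good X r' b' (r u) := by
    intro u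
    by_cases hu : r' u = r u
    · constructor
      · rintro ⟨y, hy, h1⟩
        exact ⟨y, hy, (by rw [← hu]; exact (Conn.rstep u).symm.trans h1)⟩
      · rintro ⟨y, hy, h1⟩
        exact ⟨y, hy, (by rw [← hu] at h1; exact (Conn.rstep u).trans h1)⟩
    · have h2 : r' (r u) ≠ r (r u) := by
        rw [hr.inv]
        intro h3
        apply hu
        rw [← h3, hr'.inv, h3]
      exact ⟨fun _ => h _ (Or.inl h2), fun _ => h _ (Or.inl hu)⟩
  have stepb : ∀ u, Good X r' b' u ↔ Good X r' b' (b u) := by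
    intro u
    by_cases hu : b' u = b u
    · constructor
      · rintro ⟨y, hy, h1⟩
        exact ⟨y, hy, (by rw [← hu]; exact (Conn.bstep u).symm.trans h1)⟩
      · rintro ⟨y, hy, h1⟩
        exact ⟨y, hy, (by rw [← hu] at h1; exact (Conn.bstep u).trans h1)⟩
    · have h2 : b' (b u) ≠ b (b u) := by
        rw [hb.inv]
        intro h3
        apply hu
        rw [← h3, hb'.inv, h3]
      exact ⟨fun _ => h _ (Or.inr h2), fun _ => h _ (Or.inr hu)⟩
  exact (Conn.mem_iff (S := fun u => Good X r' b' u) stepr stepb hvy).2 ⟨y, hy, Conn.refl _⟩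

theorem Cfg.mem_X (S : Cfg R B X r b c) {u : V} (hu : Conn r b c u) : X u := by
  by_contra h
  exact S.ng ⟨u, h, hu⟩

theorem Cfg.not_conn (S : Cfg R B X r b c) {x u : V} (hx : Good X r b x) (hu : Conn r b c u) :
    ¬ Conn r b x u := by
  intro h
  obtain ⟨y, hy, hxy⟩ := hx
  exact S.ng ⟨y, hy, hu.trans (h.symm.trans hxy)⟩

theorem good_r {v : V} (h : Good X r b v) : Good X r b (r v) := by
  obtain ⟨y, hy, hvy⟩ := h
  exact ⟨y, hy, (Conn.rstep v).symm.trans hvy⟩

theorem good_b {v : V} (h : Good X r b v) : Good X r b (b v) := by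
  obtain ⟨y, hy, hvy⟩ := h
  exact ⟨y, hy, (Conn.bstep v).symm.trans hvy⟩

theorem Cfg.no2 (S : Cfg R B X r b c) {x u : V} (hx : Good X r b x) (hu : Conn r b c u)
    (g : (BX B X).Adj x u) : ¬ (BX B X).Adj (b x) (b u) := by
  intro g2
  obtain ⟨b', hb', hle, hxu⟩ := merge2 S.best.pr S.best.pb g g2
  obtain ⟨y, hy, hxy⟩ := hx
  refine S.ng (S.best.max r b' S.best.pr hb' ?_ c ?_)
  · rintro v ⟨y', hy', h1⟩
    exact ⟨y', hy', hle _ _ h1⟩
  · exact ⟨y, hy, (hle _ _ hu).trans (hxu.symm.trans (hle _ _ hxy))⟩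

theorem Cfg.no2r (S : Cfg R B X r b c) {x u : V} (hx : Good X r b x) (hu : Conn r b c u)
    (g : R.Adj x u) : ¬ R.Adj (r x) (r u) := by
  intro g2
  obtain ⟨r', hr', hle, hxu⟩ := merge2 S.best.pb S.best.pr g g2
  have hle' : ∀ x y, Conn r b x y → Conn r' b x y := fun x y h => (hle x y h.swap).swap
  obtain ⟨y, hy, hxy⟩ := hx
  refine S.ng (S.best.max r' b hr' S.best.pb ?_ c ?_)
  · rintro v ⟨y', hy', h1⟩
    exact ⟨y', hy', hle' _ _ h1⟩
  · exact ⟨y, hy, (hle' _ _ hu).trans (hxu.swap.symm.trans (hle' _ _ hxy))⟩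

theorem Cfg.end_no (S : Cfg R B X r b c) {e u : V} (hbe : ¬ X (b e))
    (hu : Conn r b c u) : ¬ (BX B X).Adj e u := by
  intro g
  exact S.no2 ⟨b e, hbe, Conn.bstep e⟩ hu g (BX_cross hbe (S.mem_X (hu.trans (Conn.bstep u))))

theorem Cfg.sim_of (S : Cfg R B X r b c) {z v u : V} (hv : X v) (hA : Avd R r b c z v)
    (hB : Bvd B X r b c z v) (hu : Conn r b c u) (h1 : R.Adj (r z) (r u))
    (h2 : (BX B X).Adj (b z) (b u)) : Sim R B v u :=
  ⟨hA u hu h1, fun h => hB u hu h2 ((BX_in hv (S.mem_X hu)).2 h)⟩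

theorem Cfg.Avd_self (S : Cfg R B X r b c) {z : V} (hz : Good X r b z) : Avd R r b c z z := by
  intro u hu h1
  have h2 := S.no2r (good_r hz) (hu.trans (Conn.rstep u)) h1
  rwa [S.best.pr.inv, S.best.pr.inv] at h2

theorem Cfg.Bvd_self (S : Cfg R B X r b c) {z : V} (hz : Good X r b z) : Bvd B X r b c z z := by
  intro u hu h1
  have h2 := S.no2 (good_b hz) (hu.trans (Conn.bstep u)) h1
  rwa [S.best.pb.inv, S.best.pb.inv] at h2

theorem Cfg.Bvd_end (S : Cfg R B X r b c) {z e : V} (hbe : ¬ X (b e)) : Bvd B X r b c z e :=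
  fun _ hu _ => S.end_no hbe hu

omit [Finite V] in
private theorem bst_four (hcm : CM R B) {v w u t : V} (hvw : ¬ Sim R B v w) (hut : ¬ Sim R B u t)
    (h1 : Sim R B v u ∨ Sim R B w t) (h2 : Sim R B v t ∨ Sim R B w u) : False := by
  rcases h1 with h1 | h1 <;> rcases h2 with h2 | h2
  · exact hut (hcm.tr _ _ _ h1.symm h2)
  · exact hvw (hcm.tr _ _ _ h1 h2.symm)
  · exact hvw (hcm.tr _ _ _ h2 h1.symm)
  · exact hut (hcm.tr _ _ _ h2.symm h1)

private theorem bst_meet {C D : Set V} {f : V → V} (hf : Function.Injective f) (hD : D ⊆ C)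
    (hfC : ∀ u ∈ C, f u ∈ C) (hl : C.ncard < 2 * D.ncard) : ∃ u ∈ D, f u ∈ D := by
  by_contra hcon
  push Not at hcon
  have h1 : Disjoint D (f '' D) := by
    rw [Set.disjoint_left]
    rintro w hw ⟨u, hu, rfl⟩
    exact hcon u hu hw
  have h2 : D ∪ f '' D ⊆ C := by
    rintro w (hw | ⟨u, hu, rfl⟩)
    · exact hD hw
    · exact hfC u (hD hu)
  have h3 := Set.ncard_le_ncard h2 (Set.toFinite _)
  rw [Set.ncard_union_eq h1 (Set.toFinite _) (Set.toFinite _), Set.ncard_image_of_injective _ hf] at h3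
  omega

theorem Cfg.noB (S : Cfg R B X r b c) {z v : V} (hv : X v) (hg : Good X r b v)
    (hl : ({u | Conn r b c u} : Set V).ncard <
      2 * ({u | Conn r b c u ∧ (BX B X).Adj (b z) (b u)} : Set V).ncard)
    (h1 : Bvd B X r b c z v) (h2 : Bvd B X r b c z (r v)) : False := by
  have hr := S.best.pr
  obtain ⟨u, ⟨hu, gu⟩, hru, gru⟩ := bst_meet (f := r) (fun _ _ h => hr.inj h)
    (C := {u | Conn r b c u}) (D := {u | Conn r b c u ∧ (BX B X).Adj (b z) (b u)})
    (fun u hu => hu.1) (fun u hu => Conn.trans hu (Conn.rstep u)) hl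
  have xu := S.mem_X hu
  have xru := S.mem_X hru
  have xrv : X (r v) := S.hX.r_mem hr hv
  have k1 : Sim R B v u ∨ Sim R B (r v) (r u) := by
    by_cases g : R.Adj v u
    · exact Or.inr ⟨S.no2r hg hu g, fun h => h2 _ hru gru ((BX_in xrv xru).2 h)⟩
    · exact Or.inl ⟨g, fun h => h1 _ hu gu ((BX_in hv xu).2 h)⟩
  have k2 : Sim R B v (r u) ∨ Sim R B (r v) u := by
    by_cases g : R.Adj v (r u)
    · have h3 := S.no2r hg hru g
      rw [hr.inv] at h3
      exact Or.inr ⟨h3, fun h => h2 _ hu gu ((BX_in xrv xu).2 h)⟩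
    · exact Or.inl ⟨g, fun h => h1 _ hru gru ((BX_in hv xru).2 h)⟩
  exact bst_four S.hcm (fun h => h.1 (hr.adj v)) (fun h => h.1 (hr.adj u)) k1 k2

theorem Cfg.noA (S : Cfg R B X r b c) {z v : V} (hv : X v) (hbv : X (b v)) (hg : Good X r b v)
    (hl : ({u | Conn r b c u} : Set V).ncard <
      2 * ({u | Conn r b c u ∧ R.Adj (r z) (r u)} : Set V).ncard)
    (h1 : Avd R r b c z v) (h2 : Avd R r b c z (b v)) : False := by
  have hb := S.best.pb
  obtain ⟨u, ⟨hu, gu⟩, hbu, gbu⟩ := bst_meet (f := b) (fun _ _ h => hb.inj h)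
    (C := {u | Conn r b c u}) (D := {u | Conn r b c u ∧ R.Adj (r z) (r u)})
    (fun u hu => hu.1) (fun u hu => Conn.trans hu (Conn.bstep u)) hl
  have xu := S.mem_X hu
  have xbu := S.mem_X hbu
  have k1 : Sim R B v u ∨ Sim R B (b v) (b u) := by
    by_cases g : B.Adj v u
    · refine Or.inr ⟨h2 _ hbu gbu, fun h => ?_⟩
      exact S.no2 hg hu ((BX_in hv xu).2 g) ((BX_in hbv xbu).2 h)
    · exact Or.inl ⟨h1 _ hu gu, g⟩
  have k2 : Sim R B v (b u) ∨ Sim R B (b v) u := by
    by_cases g : B.Adj v (b u)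
    · refine Or.inr ⟨h2 _ hu gu, fun h => ?_⟩
      have h3 := S.no2 hg hbu ((BX_in hv xbu).2 g)
      rw [hb.inv] at h3
      exact h3 ((BX_in hbv xu).2 h)
    · exact Or.inl ⟨h1 _ hbu gbu, g⟩
  exact bst_four S.hcm (fun h => h.2 ((BX_in hv hbv).1 (hb.adj v)))
    (fun h => h.2 ((BX_in xu xbu).1 (hb.adj u))) k1 k2

theorem Cfg.noAe (S : Cfg R B X r b c) {z e : V} (he : X e) (hbe : ¬ X (b e))
    (hl : ({u | Conn r b c u} : Set V).ncard <
      2 * ({u | Conn r b c u ∧ R.Adj (r z) (r u)} : Set V).ncard)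
    (h1 : Avd R r b c z e) : False := by
  have hb := S.best.pb
  obtain ⟨u, ⟨hu, gu⟩, hbu, gbu⟩ := bst_meet (f := b) (fun _ _ h => hb.inj h)
    (C := {u | Conn r b c u}) (D := {u | Conn r b c u ∧ R.Adj (r z) (r u)})
    (fun u hu => hu.1) (fun u hu => Conn.trans hu (Conn.bstep u)) hl
  have xu := S.mem_X hu
  have xbu := S.mem_X hbu
  have k1 : Sim R B e u := ⟨h1 _ hu gu, fun h => S.end_no hbe hu ((BX_in he xu).2 h)⟩
  have k2 : Sim R B e (b u) := ⟨h1 _ hbu gbu, fun h => S.end_no hbe hbu ((BX_in he xbu).2 h)⟩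
  exact (S.hcm.tr _ _ _ k1.symm k2).2 ((BX_in xu xbu).1 (hb.adj u))

end Pool.Agent.H93.AHD
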