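import Pool.Agent.H93.AHD.Wlk
import Pool.Agent.H93.AHD.Bst

/-!
# AHD.RuB : rule V, blue case (paper, (5))

The same proof as `RuR`, with the matching `b` of `BX B X` changed. Put `w = wk r b i e`. If `b w = z`: `Bvd_self`. Otherwise suppose `Conn r b c u`, `(BX B X).Adj (b z) (b u)`, `(BX B X).Adj (b w) u` and
let `b'` be the 3-exchange (`ex3PM` with `a = z`, `c = w`, `d = b u`): new edges `z w`, `(b z) (b u)`, `(b w) u`; `b'` agrees with `b` outside `D = {z, b z, w, b w, u, b u}`. `w`, `b w` and the walk are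
good, so `u`, `b u` differ from the other four vertices. `Conn r b' u (b u)` by `L0`. So `b z`, `b u`, `u`, `b w` are connected in `r, b'`, and `z`, `w` are connected.
Steps from odd indices are `b` steps; `b e` is not in `X`.
`i` odd: `b w = wk (i + 1)` (possibly `i + 1 = L`). BEHIND: `wlk_seg` from `0` to `i` (steps `s < i`: for odd `s`, `wk s` is not in `D`: not `z` by `h1`; not `b z`, otherwise `wk (s + 1) = z`, `s + 1 ≤ i`; not
`w`, `b w` by `hL.inj` or `hL.out`) and the step from `e` to `b e` (`e` is not in `D`: `e ≠ z`; `e = b z` gives `z = b e`, but `X z`; `e ≠ w` (`i ≠ 0`), `e = b w` gives `w = b e`): `z`, `w` are good'. AHEAD from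
`k = i + 1`: if no `s` with `k ≤ s < L` has `wk s ∈ {z, b z}` then `b w` is connected to `wk L` (also if `k = L`): good'. Otherwise take the least such `s`; `s > k`; `s` is odd (if `s - 1` is odd then
`wk (s - 1) = b (wk s)` is in `{z, b z}`); `wk s = z`: `b w` is connected to `z`, good'; `wk s = b z`: `wk (s + 1) = z`, `s + 1 < L` (`X z`), `s + 1` even, `i` odd: contradiction to `h2`.
`i` even: `i = 0`: `b w = b e` is not in `X`, good'. `i > 0`: `b w = wk (i - 1)`, BEHIND: `wlk_seg` from `0` to `i - 1` and the step from `e` to `b e`: `b w` is good', so `b z`, `b u`, `u` are. AHEAD from `k = i`: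
no hit: `w` is good'. Least hit `s > k`, `s` odd; `wk s = z` contradicts `h2`; `wk s = b z`: `w` is connected to `b z`, good'.
So all of `D` and `u` are good' and `nogood` gives a contradiction.
-/

set_option autoImplicit false

namespace Pool.Agent.H93.AHD

open Pool.Agent.H35.AHC

variable {V : Type*} [Finite V] {R B : SimpleGraph V} {X : V → Prop} {r b : V → V} {c : V}

omit [Finite V] in
private theorem ruB_ahead {b' : V → V} (hb : IsPM (BX B X) b) {e z : V} {k L : ℕ} (hkL : k ≤ L)
    (h : ∀ s, k ≤ s → s < L → Odd s → wk r b s e ≠ z → wk r b s e ≠ b z →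
      b' (wk r b s e) = b (wk r b s e))
    (h0 : wk r b k e ≠ z) (h0' : wk r b k e ≠ b z) :
    Conn r b' (wk r b k e) (wk r b L e) ∨
      ∃ s, Odd s ∧ k < s ∧ s < L ∧ Conn r b' (wk r b k e) (wk r b s e) ∧
        (wk r b s e = z ∨ wk r b s e = b z) := by
  classical
  by_cases hex : ∃ s, k ≤ s ∧ s < L ∧ (wk r b s e = z ∨ wk r b s e = b z)
  · right
    obtain ⟨hs1, hs2, hs3⟩ := Nat.find_spec hex
    have hmin : ∀ t, k ≤ t → t < Nat.find hex → wk r b t e ≠ z ∧ wk r b t e ≠ b z := by
      intro t ht1 ht2
      constructor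
      · intro h3
        exact Nat.find_min hex ht2 ⟨ht1, by omega, Or.inl h3⟩
      · intro h3
        exact Nat.find_min hex ht2 ⟨ht1, by omega, Or.inr h3⟩
    generalize Nat.find hex = s at hs1 hs2 hs3 hmin
    have hks : k < s := by
      rcases Nat.lt_or_ge k s with h3 | h3
      · exact h3
      · have h4 : s = k := by omega
        rw [h4] at hs3
        rcases hs3 with h5 | h5
        · exact absurd h5 h0
        · exact absurd h5 h0'
    have hso : Odd s := by
      by_contra heven
      rw [Nat.not_odd_iff_even] at heven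
      obtain ⟨m, hm⟩ := heven
      have h3 := hmin (2 * (m - 1) + 1) (by omega) (by omega)
      have h4 := wk_odd (r := r) (b := b) (j := 2 * (m - 1) + 1) ⟨m - 1, rfl⟩ e
      rw [show 2 * (m - 1) + 1 + 1 = s by omega] at h4
      rcases hs3 with h5 | h5
      · rw [h4] at h5
        exact h3.2 (hb.eq_iff.1 h5)
      · rw [h4] at h5
        exact h3.1 (hb.inj h5)
    refine ⟨s, hso, hks, hs2, wlk_seg hs1 fun t ht1 ht2 => ⟨fun _ => rfl, fun hto => ?_⟩, hs3⟩
    exact h t ht1 (by omega) hto (hmin t ht1 ht2).1 (hmin t ht1 ht2).2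
  · left
    refine wlk_seg hkL fun t ht1 ht2 => ⟨fun _ => rfl, fun hto => ?_⟩
    refine h t ht1 ht2 hto ?_ ?_
    · intro h3
      exact hex ⟨t, ht1, ht2, Or.inl h3⟩
    · intro h3
      exact hex ⟨t, ht1, ht2, Or.inr h3⟩

theorem Cfg.ruleB (S : Cfg R B X r b c) {z e : V} {L i : ℕ} (hz : X z) (hzg : Good X r b z)
    (he : X e) (hbe : ¬ X (b e)) (hL : Xit X r b L e) (hi : i < L)
    (h1 : ∀ s, s ≤ i → wk r b s e ≠ z)
    (h2 : ∀ s, s < L → wk r b s e = z → (Even s ↔ Even i))
    (g : (BX B X).Adj z (wk r b i e)) : Bvd B X r b c z (b (wk r b i e)) := by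
  have hr := S.best.pr
  have hb := S.best.pb
  by_cases hbw : b (wk r b i e) = z
  · rw [hbw]
    exact S.Bvd_self hzg
  intro u hu g2 g3
  -- everything on the walk is good
  have hwg : ∀ s, Good X r b (wk r b s e) := fun s =>
    ⟨b e, hbe, (wk_conn r b s e).symm.trans (Conn.bstep e)⟩
  have hbu : Conn r b c (b u) := hu.trans (Conn.bstep u)
  have ngood : ∀ x y, Good X r b x → Conn r b c y → x ≠ y := by
    rintro x y hx hy rfl
    exact S.not_conn hx hy (Conn.refl _)
  have hwz : wk r b i e ≠ z := h1 i le_rfl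
  have hwbz : wk r b i e ≠ b z := fun h => hbw (hb.eq_iff.2 h)
  obtain ⟨b', hb', e1, e2, e3, e4, e5, e6, e7⟩ := ex3PM hb (a := z) (c := wk r b i e) (d := b u)
    hwz hwbz (ngood _ _ hzg hbu).symm (ngood _ _ (good_b hzg) hbu).symm
    (ngood _ _ (hwg i) hbu).symm (ngood _ _ (good_b (hwg i)) hbu).symm g g2
    (by rw [hb.inv]; exact g3)
  rw [hb.inv] at e5 e6 e7
  -- the component of `c`
  have hubu : Conn r b' u (b u) := by
    refine L0 hr hb u fun v hv hv1 hv2 => ?_
    have hcv : Conn r b c v := hu.trans hv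
    exact e7 v (ngood _ _ hzg hcv).symm (ngood _ _ (good_b hzg) hcv).symm
      (ngood _ _ (hwg i) hcv).symm (ngood _ _ (good_b (hwg i)) hcv).symm hv2 hv1
  have czw : Conn r b' z (wk r b i e) := by
    have := Conn.bstep (r := r) (b := b') z
    rwa [e1] at this
  have cbzbu : Conn r b' (b z) (b u) := by
    have := Conn.bstep (r := r) (b := b') (b z)
    rwa [e3] at this
  have cbwu : Conn r b' (b (wk r b i e)) u := by
    have := Conn.bstep (r := r) (b := b') (b (wk r b i e))
    rwa [e5] at this
  have cbwbz : Conn r b' (b (wk r b i e)) (b z) := cbwu.trans (hubu.trans cbzbu.symm)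
  have gtr : ∀ {x y : V}, Conn r b' x y → Good X r b' x → Good X r b' y := by
    rintro x y hxy ⟨t, ht, hxt⟩
    exact ⟨t, ht, hxy.symm.trans hxt⟩
  -- it is enough that `w` and `b w` are good'
  suffices hfin : Good X r b' (wk r b i e) ∧ Good X r b' (b (wk r b i e)) by
    obtain ⟨f1, f2⟩ := hfin
    have gz : Good X r b' z := gtr czw.symm f1
    have gbz : Good X r b' (b z) := gtr cbwbz f2
    have gu : Good X r b' u := gtr cbwu f2
    have gbu : Good X r b' (b u) := gtr hubu gu
    have hch : ∀ v, b' v ≠ b v → Good X r b' v := by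
      intro v hv
      by_cases k1 : v = z
      · rw [k1]; exact gz
      by_cases k2 : v = b z
      · rw [k2]; exact gbz
      by_cases k3 : v = wk r b i e
      · rw [k3]; exact f1
      by_cases k4 : v = b (wk r b i e)
      · rw [k4]; exact f2
      by_cases k5 : v = b u
      · rw [k5]; exact gbu
      by_cases k6 : v = u
      · rw [k6]; exact gu
      exact absurd (e7 v k1 k2 k3 k4 k5 k6) hv
    refine S.nogood hr hb' (fun v hv => ?_) ?_
    · rcases hv with hv | hv
      · exact absurd rfl hv
      · exact hch v hv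
    · refine (Conn.mem_iff (S := fun v => Good X r b' v) (fun v => ?_) (fun v => ?_) hu).2 gu
      · exact ⟨gtr (Conn.rstep v), gtr (Conn.rstep v).symm⟩
      · by_cases hv : b' v = b v
        · constructor
          · exact gtr (by rw [← hv]; exact Conn.bstep v)
          · exact gtr (by rw [← hv]; exact (Conn.bstep v).symm)
        · have h3 : b' (b v) ≠ b (b v) := by
            rw [hb.inv]
            intro h4
            apply hv
            rw [← h4, hb'.inv, h4]
          exact ⟨fun _ => hch _ h3, fun _ => hch _ hv⟩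
  -- a step from an odd index which is neither in `{z, b z}` nor in `{w, b w}`
  have hstep : ∀ s, wk r b s e ≠ z → wk r b s e ≠ b z → wk r b s e ≠ wk r b i e →
      wk r b s e ≠ b (wk r b i e) → b' (wk r b s e) = b (wk r b s e) := fun s k1 k2 k3 k4 =>
    e7 _ k1 k2 k3 k4 (ngood _ _ (hwg s) hbu) (ngood _ _ (hwg s) hu)
  have hbef : ∀ s, Odd s → s < i → wk r b s e ≠ z ∧ wk r b s e ≠ b z := by
    intro s hs hsi
    refine ⟨h1 s (by omega), fun h3 => h1 (s + 1) (by omega) ?_⟩
    rw [wk_odd hs, h3, hb.inv]
  have goodE : 0 < i → ∀ {x : V}, Conn r b' e x → Good X r b' x := by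
    intro hi0 x hx
    have h3 : b' (wk r b 0 e) = b (wk r b 0 e) := by
      refine hstep 0 (h1 0 (by omega)) ?_ ?_ ?_
      · rw [wk_zero]
        intro h4
        apply hbe
        rw [h4, hb.inv]
        exact hz
      · intro h4
        have := hL.inj 0 i (by omega) hi h4
        omega
      · rw [wk_zero]
        intro h4
        apply hbe
        have h5 := hL.mem i hi
        rw [hb.eq_iff.2 h4]
        exact h5
    rw [wk_zero] at h3
    have h4 := Conn.bstep (r := r) (b := b') e
    rw [h3] at h4
    exact ⟨b e, hbe, hx.symm.trans h4⟩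
  obtain ⟨L2, hL2⟩ := hL.even
  rcases Nat.even_or_odd i with hie | hio
  · -- `i` even
    obtain ⟨i2, hi2⟩ := hie
    have f2 : Good X r b' (b (wk r b i e)) := by
      rcases Nat.eq_zero_or_pos i with hi0 | hi0
      · rw [hi0, wk_zero]
        exact ⟨b e, hbe, Conn.refl _⟩
      · obtain ⟨j, rfl⟩ : ∃ j, i = 2 * j + 1 + 1 := ⟨i2 - 1, by omega⟩
        have hjo : Odd (2 * j + 1) := ⟨j, rfl⟩
        have hbwi : b (wk r b (2 * j + 1 + 1) e) = wk r b (2 * j + 1) e := by
          rw [wk_odd hjo, hb.inv]
        rw [hbwi]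
        refine goodE hi0 (wlk_seg (k := 0) (Nat.zero_le _) fun s _ hs => ⟨fun _ => rfl, fun hso => ?_⟩)
        refine hstep s (hbef s hso (by omega)).1 (hbef s hso (by omega)).2 ?_ ?_
        · intro h3
          have := hL.inj s (2 * j + 1 + 1) (by omega) hi h3
          omega
        · rw [hbwi]
          intro h3
          have := hL.inj s (2 * j + 1) (by omega) (by omega) h3
          omega
    refine ⟨?_, f2⟩
    rcases ruB_ahead (B := B) (X := X) (r := r) (b := b) (b' := b') hb (e := e) (z := z) (k := i)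
      (L := L) (by omega) (fun s hs1 hs2 hso k1 k2 => hstep s k1 k2
        (fun h3 => by
          have h4 := hL.inj s i hs2 hi h3
          obtain ⟨s2, hs2'⟩ := hso
          omega)
        (fun h3 => by
          rcases Nat.eq_zero_or_pos i with hi0 | hi0
          · rw [hi0, wk_zero] at h3
            apply hbe
            rw [← h3]
            exact hL.mem s hs2
          · have hjo : Odd (i - 1) := ⟨i2 - 1, by omega⟩
            have h5 := wk_odd (r := r) (b := b) hjo e
            rw [show i - 1 + 1 = i by omega] at h5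
            rw [h5, hb.inv] at h3
            have h4 := hL.inj s (i - 1) hs2 (by omega) h3
            omega))
      hwz hwbz with h3 | ⟨s, hso, hs1, hs2, h3, h4 | h4⟩
    · exact ⟨_, hL.out, h3⟩
    · exfalso
      have h6 := (h2 s hs2 h4).2 ⟨i2, hi2⟩
      obtain ⟨t, ht⟩ := h6
      obtain ⟨s2, hs2'⟩ := hso
      omega
    · rw [h4] at h3
      exact gtr h3.symm (gtr cbwbz f2)
  · -- `i` odd
    obtain ⟨j, hj⟩ := hio
    have hbwi : wk r b (i + 1) e = b (wk r b i e) := wk_odd ⟨j, hj⟩ e
    have hne : ∀ s, s < L → s ≠ i + 1 → wk r b s e ≠ b (wk r b i e) := by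
      intro s hs hsi h3
      rw [← hbwi] at h3
      rcases Nat.lt_or_ge (i + 1) L with h4 | h4
      · exact hsi (hL.inj s (i + 1) hs h4 h3)
      · have h5 : i + 1 = L := by omega
        rw [h5] at h3
        apply hL.out
        rw [← h3]
        exact hL.mem s hs
    have f1 : Good X r b' (wk r b i e) := by
      refine goodE (by omega) (wlk_seg (k := 0) (Nat.zero_le i) fun s _ hs =>
        ⟨fun _ => rfl, fun hso => ?_⟩)
      refine hstep s (hbef s hso hs).1 (hbef s hso hs).2 ?_ (hne s (by omega) (by omega))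
      intro h3
      have := hL.inj s i (by omega) hi h3
      omega
    refine ⟨f1, ?_⟩
    rw [← hbwi]
    rcases ruB_ahead (B := B) (X := X) (r := r) (b := b) (b' := b') hb (e := e) (z := z)
      (k := i + 1) (L := L) (by omega) (fun s hs1 hs2 hso k1 k2 => hstep s k1 k2
        (fun h3 => by
          have := hL.inj s i hs2 hi h3
          omega)
        (hne s hs2 (by
          obtain ⟨s2, hs2'⟩ := hso
          omega)))
      (by rw [hbwi]; exact hbw)
      (by rw [hbwi]; exact fun h3 => hwz (hb.inj h3)) with h3 | ⟨s, hso, hs1, hs2, h3, h4 | h4⟩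
    · exact ⟨_, hL.out, h3⟩
    · rw [h4] at h3
      exact gtr h3.symm (gtr czw.symm f1)
    · exfalso
      have h5 : wk r b (s + 1) e = z := by rw [wk_odd hso, h4, hb.inv]
      obtain ⟨s2, hs2'⟩ := hso
      rcases Nat.lt_or_ge (s + 1) L with h7 | h7
      · have h6 := (h2 (s + 1) h7 h5).1 ⟨s2 + 1, by omega⟩
        obtain ⟨t, ht⟩ := h6
        omega
      · have h8 : s + 1 = L := by omega
        rw [h8] at h5
        apply hL.out
        rw [h5]
        exact hz

end Pool.Agent.H93.AHD
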