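import Pool.Agent.H93.AHD.Bst

/-!
# AHD.Sum : the summation (paper, (2))

`C = {u | Conn r b c u}` (all in `X`, not good), `G = {z | X z ∧ Good X r b z}`, `E = {e | X e ∧ ¬ X (b e)} ⊆ G`, `|E| = |Y|`, `Y = {y | ¬ X y}` (`b` is a bijection between `E` and `Y`: `BX_out`).
`ρ v = #{u ∈ C | R.Adj v u}`, `β v = #{u ∈ C | (BX B X).Adj v u}`, `σ v = #{u ∈ C | Sim R B v u}`. For `v` in `X`: `ρ v + β v + σ v = |C|` (`BX_in`, `CM.dis`). `β e = 0` for `e` in `E` (`end_no`), `β y = |C|` for `y`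
in `Y` (`BX_cross`). `#{u ∈ C | R.Adj (r z) (r u)} = ρ (r z)` and `#{u ∈ C | (BX B X).Adj (b z) (b u)} = β (b z)` since `r`, `b` permute `C`.
`∑_{z ∈ G} ρ (r z) = ∑_G ρ` (`r` permutes `G`), `∑_{z ∈ G} β (b z) = ∑_{z ∈ G, z ∉ E} β (b z) + |E| |C| = ∑_{z ∈ G, z ∉ E} β z + |E| |C| = ∑_G β + |E| |C|` (`b` permutes `G - E`).
If there is no such `z`: `∑_G (ρ (r z) + β (b z)) ≤ |G| |C|`, so `|G| |C| - ∑_G σ + |E| |C| ≤ |G| |C|`, `|E| |C| ≤ ∑_G σ = ∑_{u ∈ C} #{z ∈ G | Sim z u} ≤ |C| (|Y| - 1)`, because `{z ∈ G | Sim R B z u}` and `u` itself are in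
`{w | X w ∧ Sim R B u w}` and `u ∉ G`. `|C| > 0`, `|E| = |Y|`: contradiction.
-/

set_option autoImplicit false

namespace Pool.Agent.H93.AHD

open Pool.Agent.H35.AHC

variable {V : Type*} [Finite V] {R B : SimpleGraph V} {X : V → Prop} {r b : V → V} {c : V}

omit [Finite V] in
private theorem sum_nc [Fintype V] (p : V → Prop) [DecidablePred p] :
    ({u | p u} : Set V).ncard = (Finset.univ.filter p).card := by
  rw [← Set.ncard_coe_finset]
  congr 1
  ext u
  simp

omit [Finite V] in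
private theorem sum_perm (s : Finset V) (g : V → V) (hi : ∀ v, g (g v) = v)
    (hs : ∀ v ∈ s, g v ∈ s) (f : V → ℕ) : ∑ z ∈ s, f (g z) = ∑ z ∈ s, f z := by
  refine Finset.sum_bij' (fun z _ => g z) (fun z _ => g z) ?_ ?_ ?_ ?_ ?_
  · exact fun z hz => hs z hz
  · exact fun z hz => hs z hz
  · exact fun z _ => hi z
  · exact fun z _ => hi z
  · exact fun z _ => rfl

theorem ends_card (hb : IsPM (BX B X) b) :
    ({e | X e ∧ ¬ X (b e)} : Set V).ncard = ({y | ¬ X y} : Set V).ncard := by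
  have h : ({e | X e ∧ ¬ X (b e)} : Set V) = b '' {y | ¬ X y} := by
    ext e
    constructor
    · rintro ⟨h1, h2⟩
      exact ⟨b e, h2, hb.inv e⟩
    · rintro ⟨y, hy, rfl⟩
      refine ⟨BX_out hy (hb.adj y), ?_⟩
      rw [hb.inv]
      exact hy
  rw [h, Set.ncard_image_of_injective _ (fun _ _ h => hb.inj h)]

theorem Cfg.jump (S : Cfg R B X r b c)
    (hp : ∀ v, X v → ({w | X w ∧ Sim R B v w} : Set V).ncard ≤ ({y | ¬ X y} : Set V).ncard) :
    ∃ z, X z ∧ Good X r b z ∧ Jmp R B X r b c z := by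
  classical
  haveI : Fintype V := Fintype.ofFinite V
  have hr := S.best.pr
  have hb := S.best.pb
  by_contra hcon
  push Not at hcon
  obtain ⟨C, hC⟩ : ∃ C : Finset V, C = Finset.univ.filter (fun u => Conn r b c u) := ⟨_, rfl⟩
  obtain ⟨G, hG⟩ : ∃ G : Finset V, G = Finset.univ.filter (fun z => X z ∧ Good X r b z) :=
    ⟨_, rfl⟩
  have mC : ∀ u, u ∈ C ↔ Conn r b c u := by intro u; rw [hC]; simp
  have mG : ∀ u, u ∈ G ↔ (X u ∧ Good X r b u) := by intro u; rw [hG]; simp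
  obtain ⟨ρ, hρ⟩ : ∃ ρ : V → ℕ, ∀ v, ρ v = (C.filter fun u => R.Adj v u).card :=
    ⟨_, fun _ => rfl⟩
  obtain ⟨β, hβ⟩ : ∃ β : V → ℕ, ∀ v, β v = (C.filter fun u => (BX B X).Adj v u).card :=
    ⟨_, fun _ => rfl⟩
  obtain ⟨σ, hσ⟩ : ∃ σ : V → ℕ, ∀ v, σ v = (C.filter fun u => Sim R B v u).card :=
    ⟨_, fun _ => rfl⟩
  have h1 : ∀ v, X v → ρ v + β v + σ v = C.card := by
    intro v hv
    have h2 : ∀ u ∈ C, (if R.Adj v u then 1 else 0) + (if (BX B X).Adj v u then 1 else 0) +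
        (if Sim R B v u then 1 else 0) = 1 := by
      intro u hu
      have e := BX_in (B := B) hv (S.mem_X ((mC u).1 hu))
      by_cases g1 : R.Adj v u
      · have g2 := S.hcm.dis _ _ g1
        simp [g1, e, g2, Sim]
      · by_cases g2 : B.Adj v u <;> simp [g1, e, g2, Sim]
    rw [hρ, hβ, hσ]
    simp only [Finset.card_filter]
    rw [← Finset.sum_add_distrib, ← Finset.sum_add_distrib, Finset.sum_congr rfl h2]
    simp
  have h2 : ∀ z, (C.filter fun u => R.Adj (r z) (r u)).card = ρ (r z) := by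
    intro z
    rw [hρ]
    refine Finset.card_bij' (fun u _ => r u) (fun u _ => r u) ?_ ?_ ?_ ?_
    · intro u hu
      rw [Finset.mem_filter] at hu ⊢
      exact ⟨(mC _).2 (((mC _).1 hu.1).trans (Conn.rstep u)), hu.2⟩
    · intro u hu
      rw [Finset.mem_filter] at hu ⊢
      refine ⟨(mC _).2 (((mC _).1 hu.1).trans (Conn.rstep u)), ?_⟩
      rw [hr.inv]
      exact hu.2
    · exact fun u _ => hr.inv u
    · exact fun u _ => hr.inv u
  have h3 : ∀ z, (C.filter fun u => (BX B X).Adj (b z) (b u)).card = β (b z) := by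
    intro z
    rw [hβ]
    refine Finset.card_bij' (fun u _ => b u) (fun u _ => b u) ?_ ?_ ?_ ?_
    · intro u hu
      rw [Finset.mem_filter] at hu ⊢
      exact ⟨(mC _).2 (((mC _).1 hu.1).trans (Conn.bstep u)), hu.2⟩
    · intro u hu
      rw [Finset.mem_filter] at hu ⊢
      refine ⟨(mC _).2 (((mC _).1 hu.1).trans (Conn.bstep u)), ?_⟩
      rw [hb.inv]
      exact hu.2
    · exact fun u _ => hb.inv u
    · exact fun u _ => hb.inv u
  have h4 : ∀ z ∈ G, ρ (r z) + β (b z) ≤ C.card := by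
    intro z hz
    have h5 := hcon z ((mG z).1 hz).1 ((mG z).1 hz).2
    unfold Jmp at h5
    rw [not_lt] at h5
    have e1 : ({u | Conn r b c u} : Set V).ncard = C.card := by rw [sum_nc, hC]
    have e2 : ({u | Conn r b c u ∧ R.Adj (r z) (r u)} : Set V).ncard = ρ (r z) := by
      rw [← h2, sum_nc, hC, Finset.filter_filter]
    have e3 : ({u | Conn r b c u ∧ (BX B X).Adj (b z) (b u)} : Set V).ncard = β (b z) := by
      rw [← h3, sum_nc, hC, Finset.filter_filter]
    rw [e1, e2, e3] at h5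
    exact h5
  have h5 : ∑ z ∈ G, ρ (r z) = ∑ z ∈ G, ρ z := by
    refine sum_perm G r hr.inv ?_ ρ
    intro v hv
    exact (mG _).2 ⟨S.hX.r_mem hr ((mG v).1 hv).1, good_r ((mG v).1 hv).2⟩
  have h6 : ∑ z ∈ G.filter (fun z => X (b z)), β (b z) = ∑ z ∈ G.filter (fun z => X (b z)), β z := by
    refine sum_perm _ b hb.inv ?_ β
    intro v hv
    rw [Finset.mem_filter] at hv ⊢
    refine ⟨(mG _).2 ⟨hv.2, good_b ((mG v).1 hv.1).2⟩, ?_⟩
    rw [hb.inv]
    exact ((mG v).1 hv.1).1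
  have h7 : ∑ z ∈ G.filter (fun z => ¬ X (b z)), β (b z) =
      (G.filter (fun z => ¬ X (b z))).card * C.card := by
    rw [Finset.sum_congr rfl (g := fun _ => C.card), Finset.sum_const, smul_eq_mul]
    intro z hz
    rw [Finset.mem_filter] at hz
    rw [hβ, Finset.filter_true_of_mem]
    intro u hu
    exact BX_cross hz.2 (S.mem_X ((mC u).1 hu))
  have h8 : ∑ z ∈ G.filter (fun z => ¬ X (b z)), β z = 0 := by
    refine Finset.sum_eq_zero ?_
    intro z hz
    rw [Finset.mem_filter] at hz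
    rw [hβ, Finset.card_eq_zero, Finset.filter_eq_empty_iff]
    intro u hu
    exact S.end_no hz.2 ((mC u).1 hu)
  have h9 : (G.filter (fun z => ¬ X (b z))).card = ({y | ¬ X y} : Set V).ncard := by
    rw [← ends_card hb, sum_nc]
    congr 1
    ext z
    rw [Finset.mem_filter, mG, Finset.mem_filter]
    constructor
    · rintro ⟨⟨g1, _⟩, g2⟩
      exact ⟨Finset.mem_univ _, g1, g2⟩
    · rintro ⟨_, g1, g2⟩
      exact ⟨⟨g1, b z, g2, Conn.bstep z⟩, g2⟩
  have h10 := Finset.sum_filter_add_sum_filter_not G (fun z => X (b z)) (fun z => β (b z))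
  have h11 := Finset.sum_filter_add_sum_filter_not G (fun z => X (b z)) (fun z => β z)
  have h12 : ∑ z ∈ G, (ρ (r z) + β (b z)) ≤ G.card * C.card := by
    have := Finset.sum_le_card_nsmul G (fun z => ρ (r z) + β (b z)) C.card h4
    rwa [smul_eq_mul] at this
  have h13 : ∑ z ∈ G, (ρ z + β z + σ z) = G.card * C.card := by
    rw [Finset.sum_congr rfl (g := fun _ => C.card), Finset.sum_const, smul_eq_mul]
    intro z hz
    exact h1 z ((mG z).1 hz).1
  rw [Finset.sum_add_distrib] at h12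
  rw [Finset.sum_add_distrib, Finset.sum_add_distrib] at h13
  have h14 : ∑ z ∈ G, σ z = ∑ u ∈ C, (G.filter fun z => Sim R B z u).card := by
    simp only [hσ, Finset.card_filter]
    exact Finset.sum_comm
  have h15 : ∀ u ∈ C, (G.filter fun z => Sim R B z u).card + 1 ≤ ({y | ¬ X y} : Set V).ncard := by
    intro u hu
    have xu := S.mem_X ((mC u).1 hu)
    have uG : u ∉ G := by
      intro h
      exact S.not_conn ((mG u).1 h).2 ((mC u).1 hu) (Conn.refl u)
    refine le_trans ?_ (hp u xu)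
    rw [sum_nc, ← Finset.card_insert_of_notMem (a := u)
      (fun h => uG (Finset.mem_filter.1 h).1)]
    refine Finset.card_le_card ?_
    intro w hw
    rw [Finset.mem_insert] at hw
    rw [Finset.mem_filter]
    rcases hw with rfl | hw
    · exact ⟨Finset.mem_univ _, xu, Sim.refl w⟩
    · rw [Finset.mem_filter] at hw
      exact ⟨Finset.mem_univ _, ((mG w).1 hw.1).1, hw.2.symm⟩
  have h16 : ∑ u ∈ C, ((G.filter fun z => Sim R B z u).card + 1) ≤
      C.card * ({y | ¬ X y} : Set V).ncard := by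
    have := Finset.sum_le_card_nsmul C (fun u => (G.filter fun z => Sim R B z u).card + 1)
      ({y | ¬ X y} : Set V).ncard h15
    rwa [smul_eq_mul] at this
  rw [Finset.sum_add_distrib, ← h14, Finset.sum_const, smul_eq_mul, mul_one] at h16
  have h17 : 0 < C.card := Finset.card_pos.2 ⟨c, (mC c).2 (Conn.refl c)⟩
  rw [h9] at h7
  rw [mul_comm C.card] at h16
  omega

end Pool.Agent.H93.AHD
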