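import Pool.Agent.H93.AHD.RuR
import Pool.Agent.H93.AHD.RuB
import Pool.Agent.H93.AHD.Sum

/-!
# AHD.Bet : case BETA (paper, (6))

`hJ`: `RR` and `BB` (subsets of the finite component) have a common element `u0`; `Sim R B z u0` (`sim_of`, `Avd_self`, `Bvd_self`). `Q = {w | X w ∧ Sim R B u0 w}`. `Avd v`, `Bvd v`, `X v` imply `v ∈ Q` (`sim_of`).
`Bvd (y)` is false for `¬ X y` (`BX_cross`).
`bet_first`: let `e` be an end, `L` from `wlk_xit`, and suppose `z` is not `wk s e` for an even `s < L`. Claim: there is `j < L` with `wk j e ∈ Q` and (`j` even: `Bvd (wk j e)`; `j` odd: `Bvd (r (wk j e))`). Proof: by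
induction on `m`: if `2 m ≤ L` and no index `< 2 m` is in `Q` then `Bvd (wk (2 m) e)` (`m = 0`: `Bvd_end`; step: `i = 2 m + 1 < L`, `w = wk i e` is not in `Q`, so not similar to `u0`, hence not similar to `z`; `z` is
not among the indices `≤ i` because `z ∈ Q`; `ruleR`, `ruleB` (`r w = wk (2 m)`, `b w = wk (2 m + 2)`): `Avd (wk (2 m))` or `Bvd (wk (2 m + 2))`; in the first case `wk (2 m) ∈ Q`, contradiction).
With `2 m = L` this contradicts `¬ X (wk L e)`, so there is a first index `j < L` in `Q`; `j = 2 m`: `Bvd (wk j e)`; `j = 2 m + 1`: `r (wk j e) = wk (2 m) e`.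
Main: define `φ e` for the ends `e`: `z` if `z = wk s e` for an even `s < L`, otherwise the vertex of `bet_first`. `φ` is injective: let `φ e = φ e'`, with indices `j < L`, `j' < L'`. Same parity: `wlk_back`. `j` even,
`j'` odd: `e'` is not of the first kind, `Bvd (r q)`; and `Bvd q` (`Bvd_self` if `q = z`): `noB` (all vertices of walks are good and in `X`). So `|Q ∩ good| ≥ |E| = |Y|` (`ends_card`), and `u0 ∈ Q` is not good.
-/

set_option autoImplicit false

namespace Pool.Agent.H93.AHD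

open Pool.Agent.H35.AHC

variable {V : Type*} [Finite V] {R B : SimpleGraph V} {X : V → Prop} {r b : V → V} {c : V}

private theorem bet_even (S : Cfg R B X r b c) {z u0 e : V} {L : ℕ} (hz : X z)
    (hzg : Good X r b z) (hu : Conn r b c u0) (hr0 : R.Adj (r z) (r u0))
    (hb0 : (BX B X).Adj (b z) (b u0)) (he : X e) (hbe : ¬ X (b e)) (hL : Xit X r b L e)
    (hev : ∀ s, s < L → Even s → wk r b s e ≠ z) (m : ℕ) (hm : 2 * m ≤ L)
    (hn : ∀ s, s < 2 * m → ¬ Sim R B u0 (wk r b s e)) : Bvd B X r b c z (wk r b (2 * m) e) := by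
  have hr := S.best.pr
  have hb := S.best.pb
  have hzQ : Sim R B u0 z :=
    (S.sim_of hz (S.Avd_self hzg) (S.Bvd_self hzg) hu hr0 hb0).symm
  induction m with
  | zero => exact S.Bvd_end hbe
  | succ m ih =>
    have ih' := ih (by omega) (fun s hs => hn s (by omega))
    have hi : 2 * m + 1 < L := by omega
    have hw : wk r b (2 * m + 1) e = r (wk r b (2 * m) e) := wk_even (even_two_mul m) e
    have hw2 : wk r b (2 * (m + 1)) e = b (wk r b (2 * m + 1) e) :=
      wk_odd (even_two_mul m).add_one e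
    have hXw : X (wk r b (2 * m + 1) e) := hL.mem _ hi
    have hns : ¬ Sim R B z (wk r b (2 * m + 1) e) := fun h =>
      hn (2 * m + 1) (by omega) (S.hcm.tr _ _ _ hzQ h)
    have h1 : ∀ s, s ≤ 2 * m + 1 → wk r b s e ≠ z := by
      intro s hs h
      exact hn s (by omega) (by rw [h]; exact hzQ)
    have h2 : ∀ s, s < L → wk r b s e = z → (Even s ↔ Even (2 * m + 1)) := by
      intro s hs h
      constructor
      · intro hse
        exact absurd h (hev s hs hse)
      · intro hse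
        exact absurd hse (Nat.not_even_iff_odd.2 (even_two_mul m).add_one)
    by_cases g : R.Adj z (wk r b (2 * m + 1) e)
    · exfalso
      have h3 := S.ruleR hz hzg he hbe hL hi h1 h2 g
      have h4 : r (wk r b (2 * m + 1) e) = wk r b (2 * m) e := by rw [hw, hr.inv]
      rw [h4] at h3
      have h5 : Sim R B (wk r b (2 * m) e) u0 :=
        S.sim_of (hL.mem _ (by omega)) h3 ih' hu hr0 hb0
      exact hn (2 * m) (by omega) h5.symm
    · have g2 : B.Adj z (wk r b (2 * m + 1) e) := by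
        by_contra g2
        exact hns ⟨g, g2⟩
      have h3 := S.ruleB hz hzg he hbe hL hi h1 h2 ((BX_in hz hXw).2 g2)
      rw [hw2]
      exact h3

private theorem bet_first (S : Cfg R B X r b c) {z u0 e : V} (hz : X z)
    (hzg : Good X r b z) (hu : Conn r b c u0) (hr0 : R.Adj (r z) (r u0))
    (hb0 : (BX B X).Adj (b z) (b u0)) (he : X e) (hbe : ¬ X (b e)) :
    ∃ j L, Xit X r b L e ∧ j < L ∧ Sim R B u0 (wk r b j e) ∧
      (Even j → Bvd B X r b c z (wk r b j e)) ∧ (Odd j → Bvd B X r b c z (r (wk r b j e))) := by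
  classical
  have hr := S.best.pr
  obtain ⟨L, hL⟩ := wlk_xit S.best.pr S.best.pb S.hX he hbe
  have hzQ : Sim R B u0 z :=
    (S.sim_of hz (S.Avd_self hzg) (S.Bvd_self hzg) hu hr0 hb0).symm
  by_cases hev : ∃ s, s < L ∧ Even s ∧ wk r b s e = z
  · obtain ⟨s, hs, hse, hsz⟩ := hev
    refine ⟨s, L, hL, hs, ?_, fun _ => ?_, fun h => ?_⟩
    · rw [hsz]
      exact hzQ
    · rw [hsz]
      exact S.Bvd_self hzg
    · exact absurd hse (Nat.not_even_iff_odd.2 h)
  · push Not at hev
    have hex : ∃ j, j < L ∧ Sim R B u0 (wk r b j e) := by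
      by_contra hcon
      push Not at hcon
      obtain ⟨m, hm⟩ := hL.even
      have hm2 : L = 2 * m := by omega
      have h1 := bet_even S hz hzg hu hr0 hb0 he hbe hL hev m (by omega)
        (fun s hs => hcon s (by omega))
      rw [← hm2] at h1
      exact h1 u0 hu hb0 (BX_cross hL.out (S.mem_X hu))
    obtain ⟨hj, hjs⟩ := Nat.find_spec hex
    have hmin : ∀ s, s < Nat.find hex → ¬ Sim R B u0 (wk r b s e) := fun s hs h =>
      Nat.find_min hex hs ⟨by omega, h⟩
    refine ⟨Nat.find hex, L, hL, hj, hjs, fun h => ?_, fun h => ?_⟩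
    · obtain ⟨m, hm⟩ := h
      have hm2 : Nat.find hex = 2 * m := by omega
      rw [hm2]
      exact bet_even S hz hzg hu hr0 hb0 he hbe hL hev m (by omega)
        (fun s hs => hmin s (by omega))
    · obtain ⟨m, hm⟩ := h
      rw [hm, wk_even (even_two_mul m), hr.inv]
      exact bet_even S hz hzg hu hr0 hb0 he hbe hL hev m (by omega)
        (fun s hs => hmin s (by omega))

theorem Cfg.beta (S : Cfg R B X r b c) {z : V} (hz : X z) (hzg : Good X r b z)
    (hJ : Jmp R B X r b c z)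
    (hl : ({u | Conn r b c u} : Set V).ncard <
      2 * ({u | Conn r b c u ∧ (BX B X).Adj (b z) (b u)} : Set V).ncard) :
    ∃ v, X v ∧ ({y | ¬ X y} : Set V).ncard + 1 ≤ ({w | X w ∧ Sim R B v w} : Set V).ncard := by
  classical
  have hb := S.best.pb
  have hr := S.best.pr
  obtain ⟨u0, ⟨hu, hr0⟩, _, hb0⟩ : ∃ u0, u0 ∈ ({u | Conn r b c u ∧ R.Adj (r z) (r u)} : Set V) ∧
      u0 ∈ ({u | Conn r b c u ∧ (BX B X).Adj (b z) (b u)} : Set V) := by
    by_contra hcon
    have hd : Disjoint ({u | Conn r b c u ∧ R.Adj (r z) (r u)} : Set V)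
        ({u | Conn r b c u ∧ (BX B X).Adj (b z) (b u)} : Set V) := by
      rw [Set.disjoint_left]
      intro u h1 h2
      exact hcon ⟨u, h1, h2⟩
    have h1 : ({u | Conn r b c u ∧ R.Adj (r z) (r u)} : Set V) ∪
        ({u | Conn r b c u ∧ (BX B X).Adj (b z) (b u)} : Set V) ⊆ {u | Conn r b c u} := by
      rintro u (h | h)
      · exact h.1
      · exact h.1
    have h2 := Set.ncard_le_ncard h1 (Set.toFinite _)
    rw [Set.ncard_union_eq hd (Set.toFinite _) (Set.toFinite _)] at h2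
    have h3 : ({u | Conn r b c u} : Set V).ncard <
      ({u | Conn r b c u ∧ R.Adj (r z) (r u)} : Set V).ncard +
      ({u | Conn r b c u ∧ (BX B X).Adj (b z) (b u)} : Set V).ncard := hJ
    omega
  refine ⟨u0, S.mem_X hu, ?_⟩
  have key : ∀ e, e ∈ ({e | X e ∧ ¬ X (b e)} : Set V) → ∃ p : ℕ × ℕ, Xit X r b p.2 e ∧ p.1 < p.2 ∧
      Sim R B u0 (wk r b p.1 e) ∧ (Even p.1 → Bvd B X r b c z (wk r b p.1 e)) ∧
      (Odd p.1 → Bvd B X r b c z (r (wk r b p.1 e))) := by
    rintro e ⟨he, hbe⟩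
    obtain ⟨j, L, h⟩ := bet_first S hz hzg hu hr0 hb0 he hbe
    exact ⟨(j, L), h⟩
  choose! J hJ1 hJ2 hJ3 hJ4 hJ5 using key
  have hgood : ∀ e, e ∈ ({e | X e ∧ ¬ X (b e)} : Set V) → ∀ j, Good X r b (wk r b j e) :=
    fun e he j => ⟨b e, he.2, (wk_conn r b j e).symm.trans (Conn.bstep e)⟩
  have hng : ¬ Good X r b u0 := by
    rintro ⟨y, hy, h⟩
    exact S.ng ⟨y, hy, hu.trans h⟩
  have hpar : ∀ e, e ∈ ({e | X e ∧ ¬ X (b e)} : Set V) → ∀ e', e' ∈ ({e | X e ∧ ¬ X (b e)} : Set V) →
      wk r b (J e).1 e = wk r b (J e').1 e' → Even (J e).1 → Odd (J e').1 → False := by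
    intro e he e' he' h hev hod
    have h1 := hJ4 e he hev
    have h2 := hJ5 e' he' hod
    rw [← h] at h2
    exact S.noB ((hJ1 e he).mem _ (hJ2 e he)) (hgood e he _) hl h1 h2
  have hinj : Set.InjOn (fun e => wk r b (J e).1 e) ({e | X e ∧ ¬ X (b e)} : Set V) := by
    intro e he e' he' h
    have h' : wk r b (J e).1 e = wk r b (J e').1 e' := h
    refine wlk_back hr hb he.2 he'.2 (hJ1 e he) (hJ1 e' he') (hJ2 e he) (hJ2 e' he') h' ?_
    constructor
    · intro h1
      by_contra h2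
      exact hpar e he e' he' h' h1 (Nat.not_even_iff_odd.1 h2)
    · intro h1
      by_contra h2
      exact hpar e' he' e he h'.symm h1 (Nat.not_even_iff_odd.1 h2)
  have hsub : insert u0 ((fun e => wk r b (J e).1 e) '' ({e | X e ∧ ¬ X (b e)} : Set V)) ⊆
      ({w | X w ∧ Sim R B u0 w} : Set V) := by
    rintro w (hw | ⟨e, he, rfl⟩)
    · rw [hw]
      exact ⟨S.mem_X hu, Sim.refl u0⟩
    · exact ⟨(hJ1 e he).mem _ (hJ2 e he), hJ3 e he⟩
  have hnot : u0 ∉ ((fun e => wk r b (J e).1 e) '' ({e | X e ∧ ¬ X (b e)} : Set V)) := by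
    rintro ⟨e, he, h⟩
    have h1 := hgood e he (J e).1
    have h2 : wk r b (J e).1 e = u0 := h
    rw [h2] at h1
    exact hng h1
  have h1 := Set.ncard_le_ncard hsub (Set.toFinite _)
  rw [Set.ncard_insert_of_notMem hnot (Set.toFinite _), Set.InjOn.ncard_image hinj,
    ends_card hb] at h1
  exact h1

end Pool.Agent.H93.AHD
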