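import Pool.Agent.H35.AHC.Parts

/-!
# AHD.Defs : one colour disconnected, parts + component at most `n` (MP_435603_co)

THEOREM D. `R`, `B`: 2-edge-coloured complete multipartite graph on `n` vertices. If every red component `K` has `3 |K| < 2 n + 4`, or `|P| + |K| ≤ n` for all parts `P`
which meet `K`, then there is an alternating Hamiltonian cycle iff both colours have perfect matchings. Paper proof: `/team-store/h93_ahc_paper.md` (numbers (1) - (7) refer to it).

Notation. `X` : a set of vertices without red edges to its complement `Y`. `BX B X` : the blue edges inside `X` and ALL pairs `X - Y`. `r`, `b` : perfect matchings of `R` and `BX B X`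
(functions, `IsPM`). `Good` : the component of the vertex in `r + b` meets `Y`. `Best` : the set of good vertices is maximal. `Cfg` : the situation of the proof of Theorem T: `Best`, `c` is not
good. The component of `c` is `{u | Conn r b c u}`, the ends are the `e` with `X e`, `¬ X (b e)`. `Avd` (`A(v)` in the paper) : no red edge from `v` to `RR`, `Bvd` (`B(v)`): no edge of `BX B X` from
`v` to `BB`. `wk r b i e` (H35/AHC/Parts): the walk from `e`, red step first. `Xit L e`: the walk leaves `X` at the index `L`.
-/

set_option autoImplicit false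

namespace Pool.Agent.H93.AHD

open Pool.Agent.H35.AHC

variable {V : Type*}

/-- the blue edges inside `X` and all pairs between `X` and its complement -/
def BX (B : SimpleGraph V) (X : V → Prop) : SimpleGraph V where
  Adj u v := (X u ∧ X v ∧ B.Adj u v) ∨ (X u ∧ ¬ X v) ∨ (¬ X u ∧ X v)
  symm := ⟨by
    rintro u v (h | h | h)
    · exact Or.inl ⟨h.2.1, h.1, h.2.2.symm⟩
    · exact Or.inr (Or.inr ⟨h.2, h.1⟩)
    · exact Or.inr (Or.inl ⟨h.2, h.1⟩)⟩
  loopless := ⟨by
    rintro u (h | h | h)
    · exact B.loopless.irrefl u h.2.2
    · exact h.2 h.1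
    · exact h.1 h.2⟩

theorem BX_in {B : SimpleGraph V} {X : V → Prop} {u v : V} (hu : X u) (hv : X v) :
    (BX B X).Adj u v ↔ B.Adj u v := by
  constructor
  · rintro (h | h | h)
    · exact h.2.2
    · exact absurd hv h.2
    · exact absurd hu h.1
  · exact fun h => Or.inl ⟨hu, hv, h⟩

theorem BX_cross {B : SimpleGraph V} {X : V → Prop} {u v : V} (hu : ¬ X u) (hv : X v) :
    (BX B X).Adj u v := Or.inr (Or.inr ⟨hu, hv⟩)

theorem BX_out {B : SimpleGraph V} {X : V → Prop} {u v : V} (hu : ¬ X u) (h : (BX B X).Adj u v) :
    X v := by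
  rcases h with h | h | h
  · exact h.2.1
  · exact absurd h.1 hu
  · exact h.2

/-- the component of `v` meets the complement of `X` -/
def Good (X : V → Prop) (r b : V → V) (v : V) : Prop := ∃ y, ¬ X y ∧ Conn r b v y

/-- perfect matchings of `R` and `BX B X` with a maximal set of good vertices -/
structure Best (R B : SimpleGraph V) (X : V → Prop) (r b : V → V) : Prop where
  pr : IsPM R r
  pb : IsPM (BX B X) b
  max : ∀ r' b', IsPM R r' → IsPM (BX B X) b' → (∀ v, Good X r b v → Good X r' b' v) →
    ∀ v, Good X r' b' v → Good X r b v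

/-- the situation of the proof -/
structure Cfg (R B : SimpleGraph V) (X : V → Prop) (r b : V → V) (c : V) : Prop where
  hcm : CM R B
  hX : RedCut R X
  best : Best R B X r b
  ng : ¬ Good X r b c

/-- `A(v)`: no red edge from `v` to `RR` -/
def Avd (R : SimpleGraph V) (r b : V → V) (c z v : V) : Prop :=
  ∀ u, Conn r b c u → R.Adj (r z) (r u) → ¬ R.Adj v u

/-- `B(v)`: no edge of `BX B X` from `v` to `BB` -/
def Bvd (B : SimpleGraph V) (X : V → Prop) (r b : V → V) (c z v : V) : Prop :=
  ∀ u, Conn r b c u → (BX B X).Adj (b z) (b u) → ¬ (BX B X).Adj v u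

/-- the vertex `z` of step (2): `RR` and `BB` have together more elements than the component -/
def Jmp (R B : SimpleGraph V) (X : V → Prop) (r b : V → V) (c z : V) : Prop :=
  ({u | Conn r b c u} : Set V).ncard < ({u | Conn r b c u ∧ R.Adj (r z) (r u)} : Set V).ncard +
    ({u | Conn r b c u ∧ (BX B X).Adj (b z) (b u)} : Set V).ncard

/-- the walk from the end `e` leaves `X` at the index `L` -/
structure Xit (X : V → Prop) (r b : V → V) (L : ℕ) (e : V) : Prop where
  pos : 0 < L
  even : Even L
  mem : ∀ s, s < L → X (wk r b s e)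
  out : ¬ X (wk r b L e)
  inj : ∀ s t, s < L → t < L → wk r b s e = wk r b t e → s = t

end Pool.Agent.H93.AHD
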