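import Pool.Agent.H93.AHD.Sum

/-!
# AHD.Hal : back to the real blue edges

`E = {e | X e ∧ ¬ X (b e)}`, `Y = {y | ¬ X y}`, `|E| = |Y|` (`ends_card`). Hall's theorem (`Fintype.all_card_le_filter_rel_iff_exists_injective` or `Finset.all_card_le_biUnion_card_iff_exists_injective`) for the
bipartite graph of the pairs `e ∈ E`, `y ∈ Y` with `B.Adj e y`: let `s ⊆ E` be nonempty. If `s` contains `e`, `e'` with `¬ Sim e e'` then every `y ∈ Y` is blue to `e` or `e'` (`X - Y` pairs are not red, and `y` cannot be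
similar to both), so all of `Y` is reached and `|s| ≤ |E| = |Y|`. Otherwise `s` is in the part `P` of some `e`, the vertices of `Y` not in `P` are reached, and `|s| ≤ |P ∩ X| = |P| - |P ∩ Y| ≤ |Y| - |P ∩ Y|`. So there is a
bijection `σ : E → Y` with `B.Adj e (σ e)`. `b' e = σ e`, `b' (σ e) = e`, `b' v = b v` for `v ∈ X`, `v ∉ E` (then `b v ∈ X`, `b v ∉ E`): a perfect matching of `B` (`BX_in`).
The property `T v = ∃ x, Conn r b' v x ∧ X x ∧ ¬ X (b' x)` holds on `E` and on `Y`, and it is invariant under `r` and `b` (if `v` and `b v` are in `X` then `b' v = b v`; otherwise both `v` and `b v` are in `E ∪ Y`). By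
`Conn.mem_iff` and `Good X r b v` it holds for all `v`.
-/

set_option autoImplicit false

namespace Pool.Agent.H93.AHD

open Pool.Agent.H35.AHC

variable {V : Type*} [Finite V] {R B : SimpleGraph V} {X : V → Prop} {r b : V → V}

private theorem hal_hall (hcm : CM R B) (hX : RedCut R X) (hb : IsPM (BX B X) b)
    (hp : ∀ v, ({w | Sim R B v w} : Set V).ncard ≤ ({y | ¬ X y} : Set V).ncard) :
    ∃ σ : {e // X e ∧ ¬ X (b e)} ≃ {y // ¬ X y}, ∀ e, B.Adj e.1 (σ e).1 := by
  classical
  have _ : Fintype V := Fintype.ofFinite V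
  have hcard : Fintype.card {e // X e ∧ ¬ X (b e)} = Fintype.card {y // ¬ X y} := by
    have h := ends_card hb
    rw [← _root_.Nat.card_coe_set_eq, ← _root_.Nat.card_coe_set_eq] at h
    have h1 : Nat.card {e // X e ∧ ¬ X (b e)} = Nat.card {y // ¬ X y} := h
    rwa [Nat.card_eq_fintype_card, Nat.card_eq_fintype_card] at h1
  have hall := (Fintype.all_card_le_filter_rel_iff_exists_injective
    (fun (e : {e // X e ∧ ¬ X (b e)}) (y : {y // ¬ X y}) => B.Adj e.1 y.1)).1 (fun A => by
      rcases A.eq_empty_or_nonempty with hA | ⟨e, he⟩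
      · rw [hA]
        simp
      · by_cases hs : ∃ e' ∈ A, ¬ Sim R B e.1 e'.1
        · obtain ⟨e', he', hn⟩ := hs
          have h1 : (Finset.univ.filter fun y : {y // ¬ X y} => ∃ a ∈ A, B.Adj a.1 y.1) =
              Finset.univ := by
            rw [Finset.filter_eq_self]
            intro y _
            by_contra hc
            push Not at hc
            apply hn
            have k1 : Sim R B e.1 y.1 := ⟨hX _ _ e.2.1 y.2, hc e he⟩
            have k2 : Sim R B e'.1 y.1 := ⟨hX _ _ e'.2.1 y.2, hc e' he'⟩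
            exact hcm.tr _ _ _ k1 k2.symm
          rw [h1, Finset.card_univ, ← hcard]
          exact Finset.card_le_univ A
        · push Not at hs
          have h1 : ((fun e : {e // X e ∧ ¬ X (b e)} => e.1) '' (A : Set _)).ncard = A.card := by
            rw [Set.ncard_image_of_injective _ Subtype.val_injective, Set.ncard_coe_finset]
          have h2 : ((fun y : {y // ¬ X y} => y.1) '' ((Finset.univ.filter
              fun y : {y // ¬ X y} => ∃ a ∈ A, B.Adj a.1 y.1 : Finset _) : Set _)).ncard =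
              (Finset.univ.filter fun y : {y // ¬ X y} => ∃ a ∈ A, B.Adj a.1 y.1).card := by
            rw [Set.ncard_image_of_injective _ Subtype.val_injective, Set.ncard_coe_finset]
          rw [← h1, ← h2]
          have h3 : ((fun e : {e // X e ∧ ¬ X (b e)} => e.1) '' (A : Set _)) ⊆
              ({w | Sim R B e.1 w} : Set V) \ {y | ¬ X y} := by
            rintro _ ⟨a, ha, rfl⟩
            exact ⟨hs a ha, fun h => h a.2.1⟩
          have h4 : ({y | ¬ X y} : Set V) \ {w | Sim R B e.1 w} ⊆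
              ((fun y : {y // ¬ X y} => y.1) '' ((Finset.univ.filter
              fun y : {y // ¬ X y} => ∃ a ∈ A, B.Adj a.1 y.1 : Finset _) : Set _)) := by
            rintro y ⟨hy, hsy⟩
            refine ⟨⟨y, hy⟩, ?_, rfl⟩
            rw [Finset.mem_coe, Finset.mem_filter]
            refine ⟨Finset.mem_univ _, e, he, ?_⟩
            by_contra hc
            exact hsy ⟨hX _ _ e.2.1 hy, hc⟩
          have h5 := Set.ncard_le_ncard h3 (Set.toFinite _)
          have h6 := Set.ncard_le_ncard h4 (Set.toFinite _)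
          have h7 := hp e.1
          have h8 := Set.ncard_inter_add_ncard_sdiff_eq_ncard ({w | Sim R B e.1 w} : Set V)
            {y | ¬ X y} (Set.toFinite _)
          have h9 := Set.ncard_inter_add_ncard_sdiff_eq_ncard ({y | ¬ X y} : Set V)
            {w | Sim R B e.1 w} (Set.toFinite _)
          rw [Set.inter_comm] at h9
          omega)
  obtain ⟨f, hf, hadj⟩ := hall
  have hbij : Function.Bijective f := (Fintype.bijective_iff_injective_and_card f).2 ⟨hf, hcard⟩
  exact ⟨Equiv.ofBijective f hbij, hadj⟩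

theorem hall_lift (hcm : CM R B) (hX : RedCut R X) (hb : IsPM (BX B X) b)
    (hg : ∀ v, Good X r b v)
    (hp : ∀ v, ({w | Sim R B v w} : Set V).ncard ≤ ({y | ¬ X y} : Set V).ncard) :
    ∃ b', IsPM B b' ∧ ∀ v, ∃ x, Conn r b' v x ∧ X x ∧ ¬ X (b' x) := by
  classical
  obtain ⟨σ, hσ⟩ := hal_hall hcm hX hb hp
  let b' : V → V := fun v => if h : X v ∧ ¬ X (b v) then (σ ⟨v, h⟩).1 else
    if h' : ¬ X v then (σ.symm ⟨v, h'⟩).1 else b v
  have hE : ∀ e : {e // X e ∧ ¬ X (b e)}, b' e.1 = (σ e).1 := fun e => dif_pos e.2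
  have hY : ∀ y : {y // ¬ X y}, b' y.1 = (σ.symm y).1 := by
    intro y
    have h1 : ¬ (X y.1 ∧ ¬ X (b y.1)) := fun h => y.2 h.1
    show (if h : X y.1 ∧ ¬ X (b y.1) then (σ ⟨y.1, h⟩).1 else
      if h' : ¬ X y.1 then (σ.symm ⟨y.1, h'⟩).1 else b y.1) = _
    rw [dif_neg h1, dif_pos y.2]
  have hO : ∀ v, X v → X (b v) → b' v = b v := by
    intro v h1 h2
    show (if h : X v ∧ ¬ X (b v) then (σ ⟨v, h⟩).1 else
      if h' : ¬ X v then (σ.symm ⟨v, h'⟩).1 else b v) = _
    rw [dif_neg (fun h => h.2 h2), dif_neg (fun h => h h1)]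
  have hPM : IsPM B b' := by
    constructor
    · intro v
      by_cases h1 : X v
      · by_cases h2 : X (b v)
        · rw [hO v h1 h2]
          exact (BX_in h1 h2).1 (hb.adj v)
        · have h3 := hE ⟨v, h1, h2⟩
          rw [h3]
          exact hσ ⟨v, h1, h2⟩
      · have h3 := hY ⟨v, h1⟩
        rw [h3]
        have h4 := hσ (σ.symm ⟨v, h1⟩)
        rw [Equiv.apply_symm_apply] at h4
        exact h4.symm
    · intro v
      by_cases h1 : X v
      · by_cases h2 : X (b v)
        · rw [hO v h1 h2]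
          have h3 : X (b (b v)) := by
            rw [hb.inv]
            exact h1
          rw [hO (b v) h2 h3, hb.inv]
        · have h3 := hE ⟨v, h1, h2⟩
          rw [h3, hY, Equiv.symm_apply_apply]
      · have h3 := hY ⟨v, h1⟩
        rw [h3, hE, Equiv.apply_symm_apply]
  have tE : ∀ e, X e → ¬ X (b e) → ∃ x, Conn r b' e x ∧ X x ∧ ¬ X (b' x) := by
    intro e h1 h2
    refine ⟨e, Conn.refl _, h1, ?_⟩
    have h3 := hE ⟨e, h1, h2⟩
    rw [h3]
    exact (σ ⟨e, h1, h2⟩).2
  have tY : ∀ y, ¬ X y → ∃ x, Conn r b' y x ∧ X x ∧ ¬ X (b' x) := by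
    intro y h1
    have h3 := hY ⟨y, h1⟩
    have h4 := (σ.symm ⟨y, h1⟩).2
    obtain ⟨x, hx, hx2⟩ := tE _ h4.1 h4.2
    refine ⟨x, ?_, hx2⟩
    have h5 : Conn r b' y (b' y) := Conn.bstep y
    rw [h3] at h5
    exact h5.trans hx
  refine ⟨b', hPM, fun v => ?_⟩
  obtain ⟨y, hy, hvy⟩ := hg v
  have stepr : ∀ u, (∃ x, Conn r b' u x ∧ X x ∧ ¬ X (b' x)) ↔
      ∃ x, Conn r b' (r u) x ∧ X x ∧ ¬ X (b' x) := by
    intro u
    constructor
    · rintro ⟨x, h1, h2⟩
      exact ⟨x, (Conn.rstep u).symm.trans h1, h2⟩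
    · rintro ⟨x, h1, h2⟩
      exact ⟨x, (Conn.rstep u).trans h1, h2⟩
  have stepb : ∀ u, (∃ x, Conn r b' u x ∧ X x ∧ ¬ X (b' x)) ↔
      ∃ x, Conn r b' (b u) x ∧ X x ∧ ¬ X (b' x) := by
    intro u
    by_cases h1 : X u
    · by_cases h2 : X (b u)
      · have h3 : Conn r b' u (b' u) := Conn.bstep u
        rw [hO u h1 h2] at h3
        constructor
        · rintro ⟨x, h4, h5⟩
          exact ⟨x, h3.symm.trans h4, h5⟩
        · rintro ⟨x, h4, h5⟩
          exact ⟨x, h3.trans h4, h5⟩
      · exact ⟨fun _ => tY _ h2, fun _ => tE _ h1 h2⟩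
    · have h2 : X (b u) := BX_out h1 (hb.adj u)
      have h3 : ¬ X (b (b u)) := by
        rw [hb.inv]
        exact h1
      exact ⟨fun _ => tE _ h2 h3, fun _ => tY _ h1⟩
  exact (Conn.mem_iff (S := fun u => ∃ x, Conn r b' u x ∧ X x ∧ ¬ X (b' x)) stepr stepb hvy).2
    (tY y hy)

end Pool.Agent.H93.AHD
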