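import Pool.Agent.H93.AHD.RuR
import Pool.Agent.H93.AHD.RuB
import Pool.Agent.H93.AHD.Sum

/-!
# AHD.Rho : case RHO (paper, (7))

`hJ`: `RR` and `BB` (subsets of the finite component) have a common element `u0`; `Sim R B z u0` (`sim_of`, `Avd_self`, `Bvd_self`). `Q = {w | X w ∧ Sim R B u0 w}`. `Avd v`, `Bvd v`, `X v` imply `v ∈ Q` (`sim_of`).
`Bvd (y)` is false for `¬ X y` (`BX_cross`).
`rho_first`: let `e` be an end, `L` from `wlk_xit`, and suppose `z` is not `wk s e` for an odd `s < L`. Claim: there is `j < L` with `wk j e ∈ Q` and (`j` odd: `Avd (wk j e)`; `j` even, `j > 0`: `Avd (b (wk j e))` and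
`X (b (wk j e))`). Proof: by induction on `m`: if `2 m + 1 < L` and no index `≤ 2 m` is in `Q` then `Avd (wk (2 m + 1) e)`. Step for `i = 2 m`, `w = wk i e`: not in `Q`, so not similar to `z`; `z` is not among the
indices `≤ i`; `ruleR`, `ruleB`: `Avd (r w)`, `r w = wk (2 m + 1)`, or `Bvd (b w)`; for `i = 0`, `b w = b e` is not in `X` and `Bvd (b e)` is false; for `i > 0`, `b w = wk (i - 1)`, and `Avd (wk (i - 1))`
(induction) gives `wk (i - 1) ∈ Q`, contradiction. No index `< L` in `Q`: `Avd (wk (L - 1))` (`L` even) and `Bvd (wk (L - 1))` (`Bvd_end`, since `b (wk (L - 1)) = wk L`), so `wk (L - 1) ∈ Q`, contradiction. First index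
`j`: `j = 2 m + 1`: `Avd (wk j e)`; `j = 2 m`, `m > 0`: `b (wk j e) = wk (j - 1) e`.
Main: define `φ e` for the ends `e`: `z` if `z = wk s e` for an odd `s < L`, otherwise the vertex of `rho_first`. `φ` is injective: let `φ e = φ e' = q`, indices `j < L`, `j' < L'`. Same parity: `wlk_back`. `j` odd,
`j'` even: `e'` is not of the first kind; `Avd q` (`Avd_self` if `q = z`); `j' = 0`: `q = e'`, `noAe`; `j' > 0`: `Avd (b q)`, `noA`. So `|Q ∩ good| ≥ |E| = |Y|` (`ends_card`), and `u0 ∈ Q` is not good.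
-/

set_option autoImplicit false

namespace Pool.Agent.H93.AHD

open Pool.Agent.H35.AHC

variable {V : Type*} [Finite V] {R B : SimpleGraph V} {X : V → Prop} {r b : V → V} {c : V}

private theorem rho_first (S : Cfg R B X r b c) {z u0 e : V} {L : ℕ} (hz : X z)
    (hzg : Good X r b z) (hu0 : Conn r b c u0) (g2 : (BX B X).Adj (b z) (b u0))
    (hsz : Sim R B u0 z)
    (hmk : ∀ v, X v → Avd R r b c z v → Bvd B X r b c z v → Sim R B u0 v)
    (he : X e) (hbe : ¬ X (b e)) (hL : Xit X r b L e)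
    (hodd : ∀ s, s < L → Odd s → wk r b s e ≠ z) :
    ∃ j, j < L ∧ Sim R B u0 (wk r b j e) ∧ (Odd j → Avd R r b c z (wk r b j e)) ∧
      (Even j → 0 < j → X (b (wk r b j e)) ∧ Avd R r b c z (b (wk r b j e))) := by
  classical
  have hr := S.best.pr
  have hb := S.best.pb
  have key : ∀ m, 2 * m + 1 < L → (∀ i, i ≤ 2 * m → ¬ Sim R B u0 (wk r b i e)) →
      Avd R r b c z (wk r b (2 * m + 1) e) := by
    intro m
    induction m with
    | zero =>
      intro hm hno
      have h0 : ¬ Sim R B u0 (wk r b 0 e) := hno 0 (by omega)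
      have hx0 : X (wk r b 0 e) := hL.mem 0 (by omega)
      have h1 : ∀ s, s ≤ 0 → wk r b s e ≠ z := by
        intro s hs h
        exact hno s (by omega) (by rw [h]; exact hsz)
      have h2 : ∀ s, s < L → wk r b s e = z → (Even s ↔ Even 0) := by
        intro s hs h
        rcases Nat.even_or_odd s with h' | h'
        · simp [h']
        · exact absurd h (hodd s hs h')
      have h3 : ¬ Sim R B z (wk r b 0 e) := fun h => h0 (S.hcm.tr _ _ _ hsz h)
      by_cases g : R.Adj z (wk r b 0 e)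
      · have h4 := S.ruleR hz hzg he hbe hL (by omega) h1 h2 g
        rw [← wk_even (r := r) (b := b) (j := 0) (by simp) e] at h4
        exact h4
      · have g' : B.Adj z (wk r b 0 e) := by
          by_contra g'
          exact h3 ⟨g, g'⟩
        have h4 := S.ruleB hz hzg he hbe hL (by omega) h1 h2 ((BX_in hz hx0).2 g')
        exact absurd (BX_cross hbe (S.mem_X hu0)) (h4 u0 hu0 g2)
    | succ m ih =>
      intro hm hno
      have h0 : ¬ Sim R B u0 (wk r b (2 * (m + 1)) e) := hno _ le_rfl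
      have hx0 : X (wk r b (2 * (m + 1)) e) := hL.mem _ (by omega)
      have h1 : ∀ s, s ≤ 2 * (m + 1) → wk r b s e ≠ z := by
        intro s hs h
        exact hno s hs (by rw [h]; exact hsz)
      have hev : Even (2 * (m + 1)) := even_two_mul _
      have h2 : ∀ s, s < L → wk r b s e = z → (Even s ↔ Even (2 * (m + 1))) := by
        intro s hs h
        rcases Nat.even_or_odd s with h' | h'
        · exact ⟨fun _ => hev, fun _ => h'⟩
        · exact absurd h (hodd s hs h')
      have h3 : ¬ Sim R B z (wk r b (2 * (m + 1)) e) := fun h => h0 (S.hcm.tr _ _ _ hsz h)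
      by_cases g : R.Adj z (wk r b (2 * (m + 1)) e)
      · have h4 := S.ruleR hz hzg he hbe hL (by omega) h1 h2 g
        rw [← wk_even (r := r) (b := b) hev e] at h4
        exact h4
      · exfalso
        have g' : B.Adj z (wk r b (2 * (m + 1)) e) := by
          by_contra g'
          exact h3 ⟨g, g'⟩
        have h4 := S.ruleB hz hzg he hbe hL (by omega) h1 h2 ((BX_in hz hx0).2 g')
        have ho : Odd (2 * m + 1) := ⟨m, rfl⟩
        have h5 : b (wk r b (2 * (m + 1)) e) = wk r b (2 * m + 1) e := by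
          rw [show 2 * (m + 1) = 2 * m + 1 + 1 by ring, wk_odd ho, hb.inv]
        rw [h5] at h4
        have h6 := ih (by omega) (fun i hi => hno i (by omega))
        exact hno (2 * m + 1) (by omega) (hmk _ (hL.mem _ (by omega)) h6 h4)
  have hex : ∃ j, j < L ∧ Sim R B u0 (wk r b j e) := by
    by_contra hcon
    push Not at hcon
    obtain ⟨n, hn⟩ := hL.even
    have hpos := hL.pos
    obtain ⟨m, rfl⟩ : ∃ m, n = m + 1 := ⟨n - 1, by omega⟩
    have h1 := key m (by omega) (fun i hi => hcon i (by omega))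
    have ho : Odd (2 * m + 1) := ⟨m, rfl⟩
    have h2 : b (wk r b (2 * m + 1) e) = wk r b L e := by
      rw [← wk_odd (r := r) (b := b) ho e, hn]
      congr 1
      omega
    have h3 : Bvd B X r b c z (wk r b (2 * m + 1) e) := by
      apply S.Bvd_end
      rw [h2]
      exact hL.out
    exact hcon (2 * m + 1) (by omega) (hmk _ (hL.mem _ (by omega)) h1 h3)
  obtain ⟨hj1, hj2⟩ := Nat.find_spec hex
  have hmin : ∀ i, i < Nat.find hex → ¬ Sim R B u0 (wk r b i e) := by
    intro i hi h
    exact Nat.find_min hex hi ⟨by omega, h⟩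
  refine ⟨Nat.find hex, hj1, hj2, ?_, ?_⟩
  · rintro ⟨m, hm⟩
    have h1 := key m (by omega) (fun i hi => hmin i (by omega))
    rw [hm]
    exact h1
  · rintro ⟨n, hn⟩ hpos
    obtain ⟨m, rfl⟩ : ∃ m, n = m + 1 := ⟨n - 1, by omega⟩
    have h1 := key m (by omega) (fun i hi => hmin i (by omega))
    have ho : Odd (2 * m + 1) := ⟨m, rfl⟩
    have h2 : b (wk r b (Nat.find hex) e) = wk r b (2 * m + 1) e := by
      rw [show Nat.find hex = 2 * m + 1 + 1 by omega, wk_odd ho, hb.inv]
    rw [h2]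
    exact ⟨hL.mem _ (by omega), h1⟩

theorem Cfg.rho (S : Cfg R B X r b c) {z : V} (hz : X z) (hzg : Good X r b z)
    (hJ : Jmp R B X r b c z)
    (hl : ({u | Conn r b c u} : Set V).ncard <
      2 * ({u | Conn r b c u ∧ R.Adj (r z) (r u)} : Set V).ncard) :
    ∃ v, X v ∧ ({y | ¬ X y} : Set V).ncard + 1 ≤ ({w | X w ∧ Sim R B v w} : Set V).ncard := by
  classical
  have hr := S.best.pr
  have hb := S.best.pb
  obtain ⟨u0, ⟨hu0, g1⟩, -, g2⟩ : (({u | Conn r b c u ∧ R.Adj (r z) (r u)} : Set V) ∩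
      ({u | Conn r b c u ∧ (BX B X).Adj (b z) (b u)} : Set V)).Nonempty := by
    rw [Set.nonempty_iff_ne_empty]
    intro hemp
    have h1 := Set.ncard_union_add_ncard_inter
      ({u | Conn r b c u ∧ R.Adj (r z) (r u)} : Set V)
      ({u | Conn r b c u ∧ (BX B X).Adj (b z) (b u)} : Set V) (Set.toFinite _) (Set.toFinite _)
    rw [hemp, Set.ncard_empty, add_zero] at h1
    have h2 : (({u | Conn r b c u ∧ R.Adj (r z) (r u)} : Set V) ∪
        ({u | Conn r b c u ∧ (BX B X).Adj (b z) (b u)} : Set V)).ncard ≤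
        ({u | Conn r b c u} : Set V).ncard := by
      refine Set.ncard_le_ncard ?_ (Set.toFinite _)
      rintro w (hw | hw)
      · exact hw.1
      · exact hw.1
    unfold Jmp at hJ
    omega
  have xu0 := S.mem_X hu0
  have hmk : ∀ v, X v → Avd R r b c z v → Bvd B X r b c z v → Sim R B u0 v :=
    fun v hv hA hB => (S.sim_of hv hA hB hu0 g1 g2).symm
  have hsz : Sim R B u0 z := hmk z hz (S.Avd_self hzg) (S.Bvd_self hzg)
  have hφ : ∀ e, (X e ∧ ¬ X (b e)) → ∃ q, X q ∧ Sim R B u0 q ∧ Good X r b q ∧ ∃ j L,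
      Xit X r b L e ∧ j < L ∧ q = wk r b j e ∧ (Odd j → Avd R r b c z q) ∧
      (Even j → 0 < j → X (b q) ∧ Avd R r b c z (b q)) := by
    rintro e ⟨he, hbe⟩
    obtain ⟨L, hL⟩ := wlk_xit hr hb S.hX he hbe
    have hgood : ∀ j, Good X r b (wk r b j e) := fun j =>
      ⟨b e, hbe, (wk_conn r b j e).symm.trans (Conn.bstep e)⟩
    by_cases hodd : ∀ s, s < L → Odd s → wk r b s e ≠ z
    · obtain ⟨j, hj, hs, h1, h2⟩ := rho_first S hz hzg hu0 g2 hsz hmk he hbe hL hodd
      exact ⟨wk r b j e, hL.mem j hj, hs, hgood j, j, L, hL, hj, rfl, h1, h2⟩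
    · push Not at hodd
      obtain ⟨s, hs, hso, hsz'⟩ := hodd
      refine ⟨z, hz, hsz, hzg, s, L, hL, hs, hsz'.symm, fun _ => S.Avd_self hzg, fun h => ?_⟩
      exact absurd h (Nat.not_even_iff_odd.2 hso)
  choose! φ h1 h2 h3 J Lf h4 h5 h6 h7 h8 using hφ
  have mix : ∀ e e', (X e ∧ ¬ X (b e)) → (X e' ∧ ¬ X (b e')) → φ e = φ e' → Odd (J e) →
      Even (J e') → False := by
    intro e e' he he' hee hodd heven
    have hA : Avd R r b c z (φ e) := h7 e he hodd
    rcases Nat.eq_zero_or_pos (J e') with h0 | h0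
    · have h9 : φ e' = e' := by
        rw [h6 e' he', h0]
        rfl
      rw [hee, h9] at hA
      exact S.noAe he'.1 he'.2 hl hA
    · obtain ⟨k1, k2⟩ := h8 e' he' heven h0
      rw [← hee] at k1 k2
      exact S.noA (h1 e he) k1 (h3 e he) hl hA k2
  have hinj : Set.InjOn φ ({e | X e ∧ ¬ X (b e)} : Set V) := by
    intro e he e' he' hee
    have hw : wk r b (J e) e = wk r b (J e') e' := by
      rw [← h6 e he, ← h6 e' he', hee]
    rcases Nat.even_or_odd (J e) with ha | ha <;> rcases Nat.even_or_odd (J e') with hc | hc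
    · exact wlk_back hr hb he.2 he'.2 (h4 e he) (h4 e' he') (h5 e he) (h5 e' he') hw
        ⟨fun _ => hc, fun _ => ha⟩
    · exact (mix e' e he' he hee.symm hc ha).elim
    · exact (mix e e' he he' hee ha hc).elim
    · refine wlk_back hr hb he.2 he'.2 (h4 e he) (h4 e' he') (h5 e he) (h5 e' he') hw ?_
      rw [← Nat.not_odd_iff_even, ← Nat.not_odd_iff_even]
      exact ⟨fun h => absurd ha h, fun h => absurd hc h⟩
  refine ⟨u0, xu0, ?_⟩
  have hnot : u0 ∉ φ '' ({e | X e ∧ ¬ X (b e)} : Set V) := by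
    rintro ⟨e, he, heq⟩
    have h9 := h3 e he
    rw [heq] at h9
    exact S.not_conn h9 hu0 (Conn.refl _)
  have hcard : (insert u0 (φ '' ({e | X e ∧ ¬ X (b e)} : Set V))).ncard =
      ({y | ¬ X y} : Set V).ncard + 1 := by
    rw [Set.ncard_insert_of_notMem hnot (Set.toFinite _), hinj.ncard_image,
      ends_card hb]
  rw [← hcard]
  refine Set.ncard_le_ncard ?_ (Set.toFinite _)
  rintro w (rfl | ⟨e, he, rfl⟩)
  · exact ⟨xu0, fun h => R.loopless.irrefl _ h, fun h => B.loopless.irrefl _ h⟩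
  · exact ⟨h1 e he, h2 e he⟩

end Pool.Agent.H93.AHD
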