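import Pool.Agent.H93.AHD.Bet
import Pool.Agent.H93.AHD.Rho
import Pool.Agent.H93.AHD.Hal
import Pool.Agent.H35.AHC.Main2

/-!
# AHD.Mn : Theorem D

`all_good`: by contradiction, `Cfg`, `Cfg.jump`, then `beta` or `rho` (one of `2 |BB|`, `2 |RR|` is larger than `|C|`).
`exists_maxF_above`: as `exists_maxF`, the maximum over the factors whose connectivity contains the given one.
`mainD_conn`: if `(r, b)` is connected take it. Otherwise as in `main_conn2` (H35/AHC/Main2) there is `c` whose component lies in `X = {w | R.Reachable c w}`, `Sit R B r b X c` and `hY : ∀ y, ¬ X y → X (b y)`. If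
`3 |X| < 2 n + 4`: copy the first branch of `main_conn2`. Otherwise `|P| ≤ |Y|` for every part (a part which does not meet `X` is contained in `Y`), `Y` is not empty. `b` is a perfect matching of `BX B X`;
`exists_best`, `all_good`, `hall_lift`; `exists_maxF_above` for `(r1, b2)`: in the component of any `v` there are vertices of `X` and of `Y`, so an `x` with `X x`, `¬ X (b' x)` (`Conn.mem_iff`, `RedCut.r_iff`); `lemmaA` and
`MaxF.conn`: all these `x` are connected.
-/

set_option autoImplicit false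

namespace Pool.Agent.H93.AHD

open Pool.Agent.H35.AHC

variable {V : Type*} {R B : SimpleGraph V} {X : V → Prop} {r b : V → V}

theorem all_good [Finite V] (hcm : CM R B) (hX : RedCut R X) (hM : Best R B X r b)
    (hp : ∀ v, X v → ({w | X w ∧ Sim R B v w} : Set V).ncard ≤ ({y | ¬ X y} : Set V).ncard) :
    ∀ v, Good X r b v := by
  intro c
  by_contra hc
  have S : Cfg R B X r b c := ⟨hcm, hX, hM, hc⟩
  obtain ⟨z, hz, hzg, hJ⟩ := S.jump hp
  have h : ∃ v, X v ∧ ({y | ¬ X y} : Set V).ncard + 1 ≤ ({w | X w ∧ Sim R B v w} : Set V).ncard := by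
    by_cases hl : ({u | Conn r b c u} : Set V).ncard <
      2 * ({u | Conn r b c u ∧ (BX B X).Adj (b z) (b u)} : Set V).ncard
    · exact S.beta hz hzg hJ hl
    · refine S.rho hz hzg hJ ?_
      have hJ' := hJ
      unfold Jmp at hJ'
      omega
  obtain ⟨v, hv, h1⟩ := h
  have := hp v hv
  omega

/-- The first branch of `main_conn2` (H35/AHC/Main2). -/
private theorem mn_small [Finite V] {c : V} (S : Sit R B r b X c) (hY : ∀ y, ¬ X y → X (b y))
    (hsc : 3 * ({w | X w} : Set V).ncard < 2 * Nat.card V + 4) : False := by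
  have hcm := S.hcm
  have hM := S.hM
  have hX := S.hX
  have hC := S.hC
  have hr := hM.pr
  have hb := hM.pb
  set Y : Set V := {y | ¬ X y} with hYdef
  set XX : Set V := {x | X x} with hXX
  have h2 : XX.ncard + Y.ncard = Nat.card V := by
    have : Y = XXᶜ := rfl
    rw [this, Set.ncard_add_ncard_compl]
  by_cases hE : ∃ x, X x ∧ ¬ X (b x) ∧ ¬ X (b (r x))
  · -- both ends of a red edge cross
    obtain ⟨x, hx, hbx, hbx1⟩ := hE
    have hx1 : X (r x) := hX.r_mem hr hx
    have main : ∀ x, X x → ¬ X (b x) → ¬ X (b (r x)) →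
        (∃ u, Conn r b c u ∧ B.Adj x u) → False := by
      rintro x hx hbx hbx1 ⟨u, hu, g⟩
      have hx1 : X (r x) := hX.r_mem hr hx
      rcases S.tight hx hbx hu g hx1 hbx1 with h | h
      · exact S.T2 hx hbx hbx1 hu g h
      · exact Sit1.false (x0 := x) (p := b u)
          ⟨S, hx, hbx, hbx1, S.fact_a hbx hu g, h, hu.trans (Conn.bstep u),
            fun e he hbe => S.tight hx hbx hu g he hbe, hY⟩
    by_cases k0 : ∃ u, Conn r b c u ∧ B.Adj x u
    · exact main x hx hbx hbx1 k0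
    by_cases k1 : ∃ u, Conn r b c u ∧ B.Adj (r x) u
    · exact main (r x) hx1 hbx1 (by rw [hr.inv]; exact hbx) k1
    · refine S.T0 (x := x) (fun h => S.nc hbx h (Conn.refl _))
        (fun u hu g => k0 ⟨u, hu, g⟩) (fun u hu g => k1 ⟨u, hu, g⟩)
  · -- counting
    push Not at hE
    set E : Set V := {x | X x ∧ ¬ X (b x)} with hEdef
    set C : Set V := {c, r c, b c, b (r c)} with hCdef
    have h1 : Y.ncard ≤ E.ncard := by
      refine Set.ncard_le_ncard_of_injOn b ?_ ?_ (Set.toFinite _)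
      · intro y hy
        exact ⟨hY y hy, by rw [hb.inv]; exact hy⟩
      · intro y _ y' _ h
        exact hb.inj h
    have h3 : 3 * XX.ncard < 2 * Nat.card V + 4 := hsc
    have hC4 : C.ncard = 4 := by
      have n1 : r c ≠ b c := fun h => hcm.dis _ _ (hr.adj c) (h ▸ hb.adj c)
      have e1 : c ∉ ({r c, b c, b (r c)} : Set V) := by
        rintro (h | h | h)
        · exact hr.ne c h.symm
        · exact hb.ne c h.symm
        · rw [Set.mem_singleton_iff] at h
          apply n1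
          rw [← hb.inv (r c), ← h]
      have e2 : r c ∉ ({b c, b (r c)} : Set V) := by
        rintro (h | h)
        · exact n1 h
        · exact hb.ne _ h.symm
      have e3 : b c ≠ b (r c) := fun h => hr.ne c (hb.inj h).symm
      rw [hCdef, Set.ncard_insert_of_notMem e1 (Set.toFinite _),
        Set.ncard_insert_of_notMem e2 (Set.toFinite _), Set.ncard_pair e3]
    have hCC : ∀ z ∈ C, Conn r b c z := by
      rintro z (rfl | rfl | rfl | rfl)
      · exact Conn.refl _
      · exact Conn.rstep _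
      · exact Conn.bstep _
      · exact (Conn.rstep _).trans (Conn.bstep _)
    have hEC : ∀ z ∈ E, ¬ Conn r b c z := fun z hz h => hz.2 (hC _ (h.trans (Conn.bstep z)))
    have d1 : Disjoint E (r '' E) := by
      rw [Set.disjoint_left]
      rintro z hz ⟨w, hw, rfl⟩
      exact hz.2 (hE w hw.1 hw.2)
    have d2 : Disjoint (E ∪ r '' E) C := by
      rw [Set.disjoint_left]
      rintro z (hz | ⟨w, hw, rfl⟩) hzC
      · exact hEC z hz (hCC z hzC)
      · exact hEC w hw ((hCC _ hzC).trans (Conn.rstep w).symm)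
    have hsub : (E ∪ r '' E) ∪ C ⊆ XX := by
      rintro z ((hz | ⟨w, hw, rfl⟩) | hz)
      · exact hz.1
      · exact hX.r_mem hr hw.1
      · exact hC _ (hCC z hz)
    have h4 := Set.ncard_le_ncard hsub (Set.toFinite _)
    rw [Set.ncard_union_eq d2 (Set.toFinite _) (Set.toFinite _),
      Set.ncard_union_eq d1 (Set.toFinite _) (Set.toFinite _),
      Set.ncard_image_of_injective _ (fun _ _ h => hr.inj h), hC4] at h4
    omega

theorem exists_maxF_above [Finite V] (hr : IsPM R r) (hb : IsPM B b) :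
    ∃ r' b', MaxF R B r' b' ∧ ∀ x y, Conn r b x y → Conn r' b' x y := by
  classical
  let S : Set ((V → V) × (V → V)) :=
    {p | IsPM R p.1 ∧ IsPM B p.2 ∧ ∀ x y, Conn r b x y → Conn p.1 p.2 x y}
  have hS : S.Nonempty := ⟨(r, b), hr, hb, fun _ _ h => h⟩
  obtain ⟨p, hp, hmax⟩ := Set.exists_max_image S
    (fun p => ({q : V × V | Conn p.1 p.2 q.1 q.2} : Set (V × V)).ncard) S.toFinite hS
  refine ⟨p.1, p.2, ⟨hp.1, hp.2.1, fun r' b' hr' hb' hle x y hxy => ?_⟩, hp.2.2⟩
  have h1 := hmax (r', b') ⟨hr', hb', fun x y h => hle x y (hp.2.2 x y h)⟩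
  have h2 : ({q : V × V | Conn p.1 p.2 q.1 q.2} : Set (V × V)) ⊆
      {q : V × V | Conn r' b' q.1 q.2} := fun q hq => hle _ _ hq
  have h3 := Set.eq_of_subset_of_ncard_le h2 h1 (Set.toFinite _)
  have h4 : (x, y) ∈ ({q : V × V | Conn r' b' q.1 q.2} : Set (V × V)) := hxy
  rw [← h3] at h4
  exact h4

theorem mainD_conn [Finite V] (hcm : CM R B) (hM : MaxF R B r b)
    (hs : ∀ c : V, 3 * ({w | R.Reachable c w} : Set V).ncard < 2 * Nat.card V + 4 ∨
      ∀ v, R.Reachable c v → ({w | Sim R B v w} : Set V).ncard +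
        ({w | R.Reachable c w} : Set V).ncard ≤ Nat.card V) :
    ∃ r' b', IsPM R r' ∧ IsPM B b' ∧ ∀ u v, Conn r' b' u v := by
  by_cases hcon : ∀ u v, Conn r b u v
  · exact ⟨r, b, hM.pr, hM.pb, hcon⟩
  push Not at hcon
  obtain ⟨u, v, huv⟩ := hcon
  have hr := hM.pr
  have hb := hM.pb
  -- a component without outer vertices
  obtain ⟨c, hc⟩ : ∃ c, ∀ w, Conn r b c w → R.Reachable w (b w) := by
    by_cases h1 : ∀ w, Conn r b u w → R.Reachable w (b w)
    · exact ⟨u, h1⟩
    · push Not at h1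
      obtain ⟨w1, hw1, ho1⟩ := h1
      refine ⟨v, fun w hw => ?_⟩
      by_contra ho
      exact huv ((hw1.trans (outer hcm hM ho1 ho)).trans hw.symm)
  set X : V → Prop := fun w => R.Reachable c w with hXdef
  have hX : RedCut R X := fun x y hx hy hxy => hy (hx.trans hxy.reachable)
  have hC : ∀ w, Conn r b c w → X w := by
    intro w hw
    have key := Conn.mem_iff (r := r) (b := b) (u := c) (v := w)
      (S := fun w => Conn r b c w ∧ X w)
      (fun w => ⟨fun h => ⟨h.1.trans (Conn.rstep w), hX.r_mem hr h.2⟩,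
        fun h => ⟨h.1.trans (Conn.rstep w).symm, (hX.r_iff hr w).2 h.2⟩⟩)
      (fun w => ⟨fun h => ⟨h.1.trans (Conn.bstep w), h.2.trans (hc w h.1)⟩,
        fun h => ⟨h.1.trans (Conn.bstep w).symm,
          h.2.trans (hc w (h.1.trans (Conn.bstep w).symm)).symm⟩⟩) hw
    exact (key.1 ⟨Conn.refl _, SimpleGraph.Reachable.refl _⟩).2
  have S : Sit R B r b X c := ⟨hcm, hM, hX, hC⟩
  have hY : ∀ y, ¬ X y → X (b y) := by
    intro y hy
    by_contra hby
    have xc : X c := SimpleGraph.Reachable.refl _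
    have xbc : X (b c) := hC _ (Conn.bstep c)
    have := hM.conn (F1 hcm hr hb (hX _ _ xc hy) (hX _ _ xc hby) (hX _ _ xbc hy)
      (hX _ _ xbc hby))
    exact hy (hC _ this)
  have h2 : ({w | X w} : Set V).ncard + ({y | ¬ X y} : Set V).ncard = Nat.card V := by
    have : ({y | ¬ X y} : Set V) = ({w | X w} : Set V)ᶜ := rfl
    rw [this, Set.ncard_add_ncard_compl]
  rcases hs c with hsc | hsp
  · exact (mn_small S hY hsc).elim
  -- the condition on parts
  have hp : ∀ v, ({w | Sim R B v w} : Set V).ncard ≤ ({y | ¬ X y} : Set V).ncard := by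
    intro v
    by_cases h : ∃ w, X w ∧ Sim R B v w
    · obtain ⟨w, hw, hvw⟩ := h
      have e : ({x | Sim R B v x} : Set V) = {x | Sim R B w x} := by
        ext x
        exact ⟨fun h => hcm.tr _ _ _ hvw.symm h, fun h => hcm.tr _ _ _ hvw h⟩
      have h3 : ({x | Sim R B w x} : Set V).ncard + ({x | X x} : Set V).ncard ≤ Nat.card V :=
        hsp w hw
      rw [e]
      omega
    · refine Set.ncard_le_ncard (fun w hw => ?_) (Set.toFinite _)
      exact fun hXw => h ⟨w, hXw, hw⟩
  have hbX : IsPM (BX B X) b := by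
    refine ⟨fun v => ?_, hb.inv⟩
    by_cases h1 : X v
    · by_cases h3 : X (b v)
      · exact Or.inl ⟨h1, h3, hb.adj v⟩
      · exact Or.inr (Or.inl ⟨h1, h3⟩)
    · exact Or.inr (Or.inr ⟨h1, hY v h1⟩)
  obtain ⟨r1, b1, hB1⟩ := exists_best hr hbX
  have hg : ∀ v, Good X r1 b1 v := all_good hcm hX hB1 fun v _ =>
    (Set.ncard_le_ncard (fun w hw => hw.2) (Set.toFinite _)).trans (hp v)
  obtain ⟨b2, hb2, hT⟩ := hall_lift hcm hX hB1.pb hg hp
  obtain ⟨r3, b3, hM3, hle⟩ := exists_maxF_above hB1.pr hb2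
  have hcr : ∀ v, ∃ x, Conn r3 b3 v x ∧ X x ∧ ¬ X (b3 x) := by
    intro v
    by_contra hno
    push Not at hno
    obtain ⟨x, hx, xx, nx⟩ := hT v
    have h4 : Conn r3 b3 v x := hle _ _ hx
    have h5 : Conn r3 b3 x (b2 x) := hle _ _ (Conn.bstep x)
    have key := Conn.mem_iff (r := r3) (b := b3) (u := x) (v := b2 x)
      (S := fun w => Conn r3 b3 v w ∧ X w)
      (fun w => ⟨fun h => ⟨h.1.trans (Conn.rstep w), hX.r_mem hM3.pr h.2⟩,
        fun h => ⟨h.1.trans (Conn.rstep w).symm, (hX.r_iff hM3.pr w).2 h.2⟩⟩)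
      (fun w => ⟨fun h => ⟨h.1.trans (Conn.bstep w), hno w h.1 h.2⟩,
        fun h => ⟨h.1.trans (Conn.bstep w).symm, by
          have := hno (b3 w) h.1 h.2
          rwa [hM3.pb.inv] at this⟩⟩) h5
    exact nx (key.1 ⟨h4, xx⟩).2
  refine ⟨r3, b3, hM3.pr, hM3.pb, fun u v => ?_⟩
  obtain ⟨x, hx, xx, nx⟩ := hcr u
  obtain ⟨y, hy, xy, ny⟩ := hcr v
  exact (hx.trans (hM3.conn (lemmaA hcm hM3.pr hM3.pb hX xx nx xy ny))).trans hy.symm

/-- The criterion in terms of the red components. -/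
theorem mainD_red [Finite V] [Nonempty V] (hdis : ∀ u v, R.Adj u v → ¬ B.Adj u v)
    (hcm : (R ⊔ B).IsCompleteMultipartite)
    (hs : ∀ K : R.ConnectedComponent, 3 * K.supp.ncard < 2 * Nat.card V + 4 ∨
      ∀ v ∈ K.supp, ({w | ¬ (R ⊔ B).Adj v w} : Set V).ncard + K.supp.ncard ≤ Nat.card V)
    (hR : ∃ M : R.Subgraph, M.IsPerfectMatching) (hB : ∃ M : B.Subgraph, M.IsPerfectMatching) :
    HasAHC R B := by
  rw [exists_isPM_iff] at hR hB
  obtain ⟨r0, hr0⟩ := hR
  obtain ⟨b0, hb0⟩ := hB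
  obtain ⟨r, b, hM⟩ := exists_maxF hr0 hb0
  have hCM : CM R B := by
    refine ⟨hdis, fun u v w h1 h2 => ?_⟩
    have h3 : ¬ (R ⊔ B).Adj u w := hcm.trans u v w
      (by rw [SimpleGraph.sup_adj]; exact fun h => h.elim h1.1 h1.2)
      (by rw [SimpleGraph.sup_adj]; exact fun h => h.elim h2.1 h2.2)
    rw [SimpleGraph.sup_adj] at h3
    exact ⟨fun h => h3 (Or.inl h), fun h => h3 (Or.inr h)⟩
  obtain ⟨r', b', hr', hb', hconn⟩ := mainD_conn hCM hM (fun c => by
    have h2 : (R.connectedComponentMk c).supp = ({w | R.Reachable c w} : Set V) := by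
      ext w
      rw [SimpleGraph.ConnectedComponent.mem_supp_iff, SimpleGraph.ConnectedComponent.eq]
      exact ⟨fun h => h.symm, fun h => SimpleGraph.Reachable.symm h⟩
    have h4 : ∀ v, ({w | ¬ (R ⊔ B).Adj v w} : Set V) = {w | Sim R B v w} := by
      intro v
      ext w
      simp only [Set.mem_ofPred_eq, SimpleGraph.sup_adj, Sim]
      exact ⟨fun h => ⟨fun h' => h (Or.inl h'), fun h' => h (Or.inr h')⟩,
        fun h h' => h'.elim h.1 h.2⟩
    rcases hs (R.connectedComponentMk c) with h1 | h1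
    · left
      rwa [h2] at h1
    · right
      intro v hv
      have h5 := h1 v (by rw [h2]; exact hv)
      rwa [h2, h4] at h5)
  exact hasAHC_of_conn hdis hr' hb' hconn

/-- The characterization. -/
theorem mainD_iff [Finite V] [Nonempty V] (hdis : ∀ u v, R.Adj u v → ¬ B.Adj u v)
    (hcm : (R ⊔ B).IsCompleteMultipartite)
    (hs : (∀ K : R.ConnectedComponent, 3 * K.supp.ncard < 2 * Nat.card V + 4 ∨
      ∀ v ∈ K.supp, ({w | ¬ (R ⊔ B).Adj v w} : Set V).ncard + K.supp.ncard ≤ Nat.card V) ∨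
      (∀ K : B.ConnectedComponent, 3 * K.supp.ncard < 2 * Nat.card V + 4 ∨
      ∀ v ∈ K.supp, ({w | ¬ (R ⊔ B).Adj v w} : Set V).ncard + K.supp.ncard ≤ Nat.card V)) :
    HasAHC R B ↔
      (∃ M : R.Subgraph, M.IsPerfectMatching) ∧ (∃ M : B.Subgraph, M.IsPerfectMatching) := by
  constructor
  · intro h
    rw [exists_isPM_iff, exists_isPM_iff]
    exact ⟨h.exists_red, h.swap.exists_red⟩
  · rintro ⟨hR, hB⟩
    rcases hs with hs | hs
    · exact mainD_red hdis hcm hs hR hB
    · refine (mainD_red (fun u v h1 h2 => hdis u v h2 h1) (sup_comm R B ▸ hcm) ?_ hB hR).swap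
      rw [sup_comm R B] at hs
      exact hs

end Pool.Agent.H93.AHD
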