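import Pool.Agent.H93.AHD.Wlk
import Pool.Agent.H93.AHD.Bst

/-!
# AHD.RuR : rule V, red case (paper, (5))

Put `w = wk r b i e`. If `r w = z`: `Avd_self`. Otherwise suppose `Conn r b c u`, `R.Adj (r z) (r u)`, `R.Adj (r w) u` and let `r'` be the 3-exchange (`ex3PM`, H35/AHC/Merge, for `R` instead of `B`,
with `a = z`, `c = w`, `d = r u`): new edges `z w`, `(r z) (r u)`, `(r w) u`; `r'` agrees with `r` outside `D = {z, r z, w, r w, u, r u}`. `w` and the walk are good (connected to `b e`), so `u`, `r u`
differ from the other four vertices. `Conn r' b u (r u)` by `L0` for the matching `r` (`Conn.swap`): `r'` agrees with `r` on the component of `c` except at `u`, `r u`. So `r z`, `r u`, `u`, `r w` are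
connected in `r', b`, and `z`, `w` are connected.
Let `f = r`; steps from even indices are `f` steps.
`i` even: `r w = wk (i + 1)`. BEHIND: `wlk_seg` from `0` to `i` (steps `s < i`: for even `s`, `wk s` is not in `D`: not `z` by `h1`; not `r z`, otherwise `wk (s + 1) = z`, `s + 1 ≤ i`; not `w`, `r w` by `hL.inj`)
and the step `b`: `Conn r' b w (b e)`: `z`, `w` are good'. AHEAD from `k = i + 1`: if no `s` with `k ≤ s < L` has `wk s ∈ {z, r z}` then `wlk_seg` from `k` to `L`: `r w` is connected to `wk L`, good'.
Otherwise take the least such `s`; `s > k`; `s` is even (if `s - 1` is even then `wk (s - 1) = r (wk s)` is in `{z, r z}`); `wlk_seg` from `k` to `s`; if `wk s = z` then `r w` is connected to `z`, good';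
if `wk s = r z` then `wk (s + 1) = z`, `s + 1 < L` (`X z`), and `h2` gives a contradiction (`s + 1` odd, `i` even).
`i` odd: `r w = wk (i - 1)`. BEHIND: `wlk_seg` from `0` to `i - 1`: `r w` is good', so `r z`, `r u`, `u` are. AHEAD from `k = i`: no hit: `w` is good'. Least hit `s > k`, `s` even as before; `wk s = z`
contradicts `h2` (`s` even, `i` odd); `wk s = r z`: `w` is connected to `r z`, good'.
So all of `D` and `u` are good' and `nogood` (with `c` connected to `u`: `Conn r' b c u`? use that `Good'` is invariant, or `le_of_exchange`: every old connection inside the component of `c` is kept)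
gives a contradiction.
-/

set_option autoImplicit false

namespace Pool.Agent.H93.AHD

open Pool.Agent.H35.AHC

variable {V : Type*} {R B : SimpleGraph V} {X : V → Prop} {r b : V → V} {c : V}

private theorem ruR_ahead {r' : V → V} (hr : IsPM R r) {e z : V} {k L : ℕ} (hkL : k ≤ L)
    (h : ∀ s, k ≤ s → s < L → Even s → wk r b s e ≠ z → wk r b s e ≠ r z →
      r' (wk r b s e) = r (wk r b s e))
    (h0 : wk r b k e ≠ z) (h0' : wk r b k e ≠ r z) :
    Conn r' b (wk r b k e) (wk r b L e) ∨
      ∃ s, Even s ∧ k < s ∧ s < L ∧ Conn r' b (wk r b k e) (wk r b s e) ∧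
        (wk r b s e = z ∨ wk r b s e = r z) := by
  classical
  by_cases hex : ∃ s, k ≤ s ∧ s < L ∧ (wk r b s e = z ∨ wk r b s e = r z)
  · right
    obtain ⟨hs1, hs2, hs3⟩ := Nat.find_spec hex
    have hmin : ∀ t, k ≤ t → t < Nat.find hex → wk r b t e ≠ z ∧ wk r b t e ≠ r z := by
      intro t ht1 ht2
      constructor
      · intro h3
        exact Nat.find_min hex ht2 ⟨ht1, by omega, Or.inl h3⟩
      · intro h3
        exact Nat.find_min hex ht2 ⟨ht1, by omega, Or.inr h3⟩
    generalize Nat.find hex = s at hs1 hs2 hs3 hmin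
    have hks : k < s := by
      rcases Nat.lt_or_ge k s with h3 | h3
      · exact h3
      · have h4 : s = k := by omega
        rw [h4] at hs3
        rcases hs3 with h5 | h5
        · exact absurd h5 h0
        · exact absurd h5 h0'
    have hse : Even s := by
      by_contra hodd
      rw [Nat.not_even_iff_odd] at hodd
      obtain ⟨m, hm⟩ := hodd
      have h3 := hmin (2 * m) (by omega) (by omega)
      have h4 := wk_even (r := r) (b := b) (even_two_mul m) e
      rw [← hm] at h4
      rcases hs3 with h5 | h5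
      · rw [h4] at h5
        exact h3.2 (hr.eq_iff.1 h5)
      · rw [h4] at h5
        exact h3.1 (hr.inj h5)
    refine ⟨s, hse, hks, hs2, wlk_seg hs1 fun t ht1 ht2 => ⟨fun hte => ?_, fun _ => rfl⟩, hs3⟩
    exact h t ht1 (by omega) hte (hmin t ht1 ht2).1 (hmin t ht1 ht2).2
  · left
    refine wlk_seg hkL fun t ht1 ht2 => ⟨fun hte => ?_, fun _ => rfl⟩
    refine h t ht1 ht2 hte ?_ ?_
    · intro h3
      exact hex ⟨t, ht1, ht2, Or.inl h3⟩
    · intro h3
      exact hex ⟨t, ht1, ht2, Or.inr h3⟩

variable [Finite V]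

theorem Cfg.ruleR (S : Cfg R B X r b c) {z e : V} {L i : ℕ} (hz : X z) (hzg : Good X r b z)
    (he : X e) (hbe : ¬ X (b e)) (hL : Xit X r b L e) (hi : i < L)
    (h1 : ∀ s, s ≤ i → wk r b s e ≠ z)
    (h2 : ∀ s, s < L → wk r b s e = z → (Even s ↔ Even i)) (g : R.Adj z (wk r b i e)) :
    Avd R r b c z (r (wk r b i e)) := by
  have hr := S.best.pr
  have hb := S.best.pb
  by_cases hrw : r (wk r b i e) = z
  · rw [hrw]
    exact S.Avd_self hzg
  intro u hu g2 g3
  -- everything on the walk is good
  have hwg : ∀ s, Good X r b (wk r b s e) := fun s =>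
    ⟨b e, hbe, (wk_conn r b s e).symm.trans (Conn.bstep e)⟩
  have hru : Conn r b c (r u) := hu.trans (Conn.rstep u)
  have ngood : ∀ x y, Good X r b x → Conn r b c y → x ≠ y := by
    rintro x y hx hy rfl
    exact S.not_conn hx hy (Conn.refl _)
  have hwz : wk r b i e ≠ z := h1 i le_rfl
  have hwrz : wk r b i e ≠ r z := fun h => hrw (hr.eq_iff.2 h)
  obtain ⟨r', hr', e1, e2, e3, e4, e5, e6, e7⟩ := ex3PM hr (a := z) (c := wk r b i e) (d := r u)
    hwz hwrz (ngood _ _ hzg hru).symm (ngood _ _ (good_r hzg) hru).symm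
    (ngood _ _ (hwg i) hru).symm (ngood _ _ (good_r (hwg i)) hru).symm g g2
    (by rw [hr.inv]; exact g3)
  rw [hr.inv] at e5 e6 e7
  -- the component of `c`
  have huru : Conn r' b u (r u) := by
    refine Conn.swap (L0 hb hr u fun v hv hv1 hv2 => ?_)
    have hcv : Conn r b c v := hu.trans hv.swap
    exact e7 v (ngood _ _ hzg hcv).symm (ngood _ _ (good_r hzg) hcv).symm
      (ngood _ _ (hwg i) hcv).symm (ngood _ _ (good_r (hwg i)) hcv).symm hv2 hv1
  have czw : Conn r' b z (wk r b i e) := by
    have := Conn.rstep (r := r') (b := b) z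
    rwa [e1] at this
  have crzru : Conn r' b (r z) (r u) := by
    have := Conn.rstep (r := r') (b := b) (r z)
    rwa [e3] at this
  have crwu : Conn r' b (r (wk r b i e)) u := by
    have := Conn.rstep (r := r') (b := b) (r (wk r b i e))
    rwa [e5] at this
  have crwrz : Conn r' b (r (wk r b i e)) (r z) := crwu.trans (huru.trans crzru.symm)
  have gtr : ∀ {x y : V}, Conn r' b x y → Good X r' b x → Good X r' b y := by
    rintro x y hxy ⟨t, ht, hxt⟩
    exact ⟨t, ht, hxy.symm.trans hxt⟩
  -- it is enough that `w` and `r w` are good'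
  suffices hfin : Good X r' b (wk r b i e) ∧ Good X r' b (r (wk r b i e)) by
    obtain ⟨f1, f2⟩ := hfin
    have gz : Good X r' b z := gtr czw.symm f1
    have grz : Good X r' b (r z) := gtr crwrz f2
    have gu : Good X r' b u := gtr crwu f2
    have gru : Good X r' b (r u) := gtr huru gu
    have hch : ∀ v, r' v ≠ r v → Good X r' b v := by
      intro v hv
      by_cases k1 : v = z
      · rw [k1]; exact gz
      by_cases k2 : v = r z
      · rw [k2]; exact grz
      by_cases k3 : v = wk r b i e
      · rw [k3]; exact f1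
      by_cases k4 : v = r (wk r b i e)
      · rw [k4]; exact f2
      by_cases k5 : v = r u
      · rw [k5]; exact gru
      by_cases k6 : v = u
      · rw [k6]; exact gu
      exact absurd (e7 v k1 k2 k3 k4 k5 k6) hv
    refine S.nogood hr' hb (fun v hv => ?_) ?_
    · rcases hv with hv | hv
      · exact hch v hv
      · exact absurd rfl hv
    · refine (Conn.mem_iff (S := fun v => Good X r' b v) (fun v => ?_) (fun v => ?_) hu).2 gu
      · by_cases hv : r' v = r v
        · constructor
          · exact gtr (by rw [← hv]; exact Conn.rstep v)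
          · exact gtr (by rw [← hv]; exact (Conn.rstep v).symm)
        · have h3 : r' (r v) ≠ r (r v) := by
            rw [hr.inv]
            intro h4
            apply hv
            rw [← h4, hr'.inv, h4]
          exact ⟨fun _ => hch _ h3, fun _ => hch _ hv⟩
      · exact ⟨gtr (Conn.bstep v), gtr (Conn.bstep v).symm⟩
  -- a step from an even index which is neither in `{z, r z}` nor in `{w, r w}`
  have hstep : ∀ s, wk r b s e ≠ z → wk r b s e ≠ r z → wk r b s e ≠ wk r b i e →
      wk r b s e ≠ r (wk r b i e) → r' (wk r b s e) = r (wk r b s e) := fun s k1 k2 k3 k4 =>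
    e7 _ k1 k2 k3 k4 (ngood _ _ (hwg s) hru) (ngood _ _ (hwg s) hu)
  have hbef : ∀ s, Even s → s < i → wk r b s e ≠ z ∧ wk r b s e ≠ r z := by
    intro s hs hsi
    refine ⟨h1 s (by omega), fun h3 => h1 (s + 1) (by omega) ?_⟩
    rw [wk_even hs, h3, hr.inv]
  have goodE : ∀ {x : V}, Conn r' b e x → Good X r' b x := fun hx =>
    ⟨b e, hbe, hx.symm.trans (Conn.bstep e)⟩
  obtain ⟨L2, hL2⟩ := hL.even
  rcases Nat.even_or_odd i with hie | hio
  · -- `i` even
    obtain ⟨i2, hi2⟩ := hie
    have hrwi : wk r b (i + 1) e = r (wk r b i e) := wk_even ⟨i2, hi2⟩ e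
    have hi1 : i + 1 < L := by omega
    have f1 : Good X r' b (wk r b i e) := by
      refine goodE (wlk_seg (k := 0) (Nat.zero_le i) fun s _ hs => ⟨fun hse => ?_, fun _ => rfl⟩)
      refine hstep s (hbef s hse hs).1 (hbef s hse hs).2 ?_ ?_
      · intro h3
        have := hL.inj s i (by omega) hi h3
        omega
      · rw [← hrwi]
        intro h3
        have := hL.inj s (i + 1) (by omega) hi1 h3
        omega
    refine ⟨f1, ?_⟩
    rw [← hrwi]
    rcases ruR_ahead (R := R) (r := r) (b := b) (r' := r') hr (e := e) (z := z) (k := i + 1)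
      (L := L) (by omega) (fun s hs1 hs2 hse k1 k2 => hstep s k1 k2
        (fun h3 => by
          have := hL.inj s i hs2 hi h3
          omega)
        (fun h3 => by
          rw [← hrwi] at h3
          have h4 := hL.inj s (i + 1) hs2 hi1 h3
          obtain ⟨s2, hs2'⟩ := hse
          omega))
      (by rw [hrwi]; exact hrw)
      (by rw [hrwi]; exact fun h3 => hwz (hr.inj h3)) with h3 | ⟨s, hse, hs1, hs2, h3, h4 | h4⟩
    · exact ⟨_, hL.out, h3⟩
    · rw [h4] at h3
      exact gtr h3.symm (gtr czw.symm f1)
    · exfalso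
      have h5 : wk r b (s + 1) e = z := by rw [wk_even hse, h4, hr.inv]
      obtain ⟨s2, hs2'⟩ := hse
      have h6 := (h2 (s + 1) (by omega) h5).2 ⟨i2, hi2⟩
      obtain ⟨t, ht⟩ := h6
      omega
  · -- `i` odd
    obtain ⟨j, hj⟩ := hio
    have hje : Even (2 * j) := even_two_mul j
    have hrwi : r (wk r b i e) = wk r b (2 * j) e := by
      rw [hj, wk_even hje, hr.inv]
    have f2 : Good X r' b (r (wk r b i e)) := by
      rw [hrwi]
      refine goodE (wlk_seg (k := 0) (Nat.zero_le _) fun s _ hs => ⟨fun hse => ?_, fun _ => rfl⟩)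
      refine hstep s (hbef s hse (by omega)).1 (hbef s hse (by omega)).2 ?_ ?_
      · intro h3
        have := hL.inj s i (by omega) hi h3
        omega
      · rw [hrwi]
        intro h3
        have := hL.inj s (2 * j) (by omega) (by omega) h3
        omega
    refine ⟨?_, f2⟩
    rcases ruR_ahead (R := R) (r := r) (b := b) (r' := r') hr (e := e) (z := z) (k := i)
      (L := L) (by omega) (fun s hs1 hs2 hse k1 k2 => hstep s k1 k2
        (fun h3 => by
          have h4 := hL.inj s i hs2 hi h3
          obtain ⟨s2, hs2'⟩ := hse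
          omega)
        (fun h3 => by
          rw [hrwi] at h3
          have h4 := hL.inj s (2 * j) hs2 (by omega) h3
          omega))
      hwz hwrz with h3 | ⟨s, hse, hs1, hs2, h3, h4 | h4⟩
    · exact ⟨_, hL.out, h3⟩
    · exfalso
      have h6 := (h2 s hs2 h4).1 hse
      obtain ⟨t, ht⟩ := h6
      omega
    · rw [h4] at h3
      exact gtr h3.symm (gtr crwrz f2)

end Pool.Agent.H93.AHD
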