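import Pool.Agent.H93.AHD.Defs

/-!
# AHD.Wlk : the walk from an end

`wk r b 0 e = e`, `wk_even`, `wk_odd` (H35/AHC/Parts): `wk (j+1) = r (wk j)` for even `j`, `b (wk j)` for odd `j`.
`wlk_xit`: `(iter_inj hr hb).mem_periodicPts e` gives `p > 0` with `wk r b (2 * p) e = e` (`wk_two_mul`), so `wk r b (2 * p - 1) e = b e` is not in `X` (see the end of `Sit.token` in Parts): let `L` be
the least index with `¬ X (wk r b L e)` (`Nat.find`). `L > 0` since `X e`. `L` is even: a step from an even index is an `r` step and `r` preserves `X` (`RedCut.r_iff`). Injectivity: let `s < t < L`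
and `wk s = wk t`. If `t - s` is even then `wk (t - s) e = e` (`wk_add`, `wk_inj`), the last step is a `b` step, so `b e = wk (t - s - 1) e` is in `X`: contradiction. If `t - s` is odd: induction on
`t - s`: both ends have the same type of step (`s` and `t - 1` have the same parity), so `wk (s + 1) = step (wk s) = step (wk t) = wk (t - 1)`; the difference drops by two, at the end `t = s + 1`
and `wk s` is a fixed point of `r` or `b` (`IsPM.ne`).
`wlk_seg`: induction on `m`. `wlk_back`: if `i ≤ j`, `j = k + i`, `k` even: `wk_add`, `wk_inj`: `e = wk k e'`; `k > 0` would give `b e = wk (k - 1) e'` in `X`.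
-/

set_option autoImplicit false

namespace Pool.Agent.H93.AHD

open Pool.Agent.H35.AHC

variable {V : Type*} {R B : SimpleGraph V} {X : V → Prop} {r b : V → V}

private theorem wlk_inj_aux (hr : IsPM R r) (hb : IsPM (BX B X) b) {e : V} (hbe : ¬ X (b e)) {L : ℕ}
    (hmem : ∀ s, s < L → X (wk r b s e)) : ∀ n s t : ℕ, t = s + n → 0 < n → t < L →
      wk r b s e ≠ wk r b t e := by
  intro n
  induction n using Nat.strong_induction_on with
  | _ n ih =>
    intro s t hst hn ht heq
    rcases Nat.even_or_odd n with hne | hno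
    · have h1 : wk r b (n + s) e = wk r b s (wk r b n e) := wk_add hne s e
      have h2 : wk r b s (wk r b n e) = wk r b s e := by
        rw [← h1, show n + s = t by omega, heq]
      have h3 := wk_inj hr hb s h2
      obtain ⟨m, rfl⟩ : ∃ m, n = m + 1 := ⟨n - 1, by omega⟩
      have hm : Odd m := by
        rcases Nat.even_or_odd m with h | h
        · exact absurd hne (by rw [Nat.even_add_one]; simpa using h)
        · exact h
      rw [wk_odd hm] at h3
      have h4 : b e = wk r b m e := by
        have h5 := congrArg b h3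
        rw [hb.inv] at h5
        exact h5.symm
      exact hbe (h4 ▸ hmem m (by omega))
    · rcases Nat.lt_or_ge n 2 with h | h
      · have h1 : n = 1 := by obtain ⟨k, hk⟩ := hno; omega
        subst h1
        subst hst
        rcases Nat.even_or_odd s with hs | hs
        · rw [wk_even hs] at heq
          exact hr.ne _ heq.symm
        · rw [wk_odd hs] at heq
          exact hb.ne _ heq.symm
      · obtain ⟨k, hk⟩ := hno
        have hk1 : 1 ≤ k := by omega
        obtain ⟨m, rfl⟩ : ∃ m, t = m + 1 := ⟨t - 1, by omega⟩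
        have hpar : Even m ↔ Even s := by
          have : m = s + 2 * k := by omega
          rw [this, Nat.even_add]
          simp
        have h1 : wk r b (s + 1) e = wk r b m e := by
          rcases Nat.even_or_odd s with hs | hs
          · rw [wk_even hs, heq, wk_even (hpar.2 hs), hr.inv]
          · have hmo : Odd m := by
              rw [← Nat.not_even_iff_odd, hpar, Nat.not_even_iff_odd]
              exact hs
            rw [wk_odd hs, heq, wk_odd hmo, hb.inv]
        exact ih (n - 2) (by omega) (s + 1) m (by omega) (by omega) (by omega) h1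

theorem wlk_xit [Finite V] (hr : IsPM R r) (hb : IsPM (BX B X) b) (hX : RedCut R X) {e : V}
    (he : X e) (hbe : ¬ X (b e)) : ∃ L, Xit X r b L e := by
  classical
  obtain ⟨p, hp, hpe⟩ := (iter_inj hr hb).mem_periodicPts e
  have h1 : wk r b (2 * p) e = e := by rw [wk_two_mul]; exact hpe
  have h2 : Odd (2 * p - 1) := ⟨p - 1, by omega⟩
  have h3 := wk_odd (r := r) (b := b) h2 e
  rw [show 2 * p - 1 + 1 = 2 * p by omega, h1] at h3
  have h4 : wk r b (2 * p - 1) e = b e := by
    have h5 := congrArg b h3
    rw [hb.inv] at h5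
    exact h5.symm
  have hex : ∃ L, ¬ X (wk r b L e) := ⟨2 * p - 1, by rw [h4]; exact hbe⟩
  have hmem : ∀ s, s < Nat.find hex → X (wk r b s e) := fun s hs => by
    by_contra h
    exact Nat.find_min hex hs h
  have hout : ¬ X (wk r b (Nat.find hex) e) := Nat.find_spec hex
  have hpos : 0 < Nat.find hex := by
    rcases Nat.eq_zero_or_pos (Nat.find hex) with h | h
    · rw [h] at hout
      exact absurd he hout
    · exact h
  refine ⟨Nat.find hex, hpos, ?_, hmem, hout, ?_⟩
  · by_contra hodd
    rw [Nat.not_even_iff_odd] at hodd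
    obtain ⟨k, hk⟩ := hodd
    rw [hk] at hout
    rw [wk_even (even_two_mul k)] at hout
    exact hout (hX.r_mem hr (hmem _ (by omega)))
  · intro s t hs ht heq
    rcases lt_trichotomy s t with h | h | h
    · exact absurd heq (wlk_inj_aux hr hb hbe hmem (t - s) s t (by omega) (by omega) ht)
    · exact h
    · exact absurd heq.symm (wlk_inj_aux hr hb hbe hmem (s - t) t s (by omega) (by omega) hs)

theorem wlk_seg {r b r' b' : V → V} {e : V} {k m : ℕ} (hkm : k ≤ m)
    (h : ∀ s, k ≤ s → s < m → (Even s → r' (wk r b s e) = r (wk r b s e)) ∧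
      (Odd s → b' (wk r b s e) = b (wk r b s e))) :
    Conn r' b' (wk r b k e) (wk r b m e) := by
  induction m, hkm using Nat.le_induction with
  | base => exact Conn.refl _
  | succ m hkm ih =>
    have h1 := ih fun s hs hsm => h s hs (by omega)
    have h2 := h m hkm (by omega)
    refine h1.trans ?_
    rcases Nat.even_or_odd m with hm | hm
    · rw [wk_even hm, ← h2.1 hm]
      exact Conn.rstep _
    · rw [wk_odd hm, ← h2.2 hm]
      exact Conn.bstep _

private theorem wlk_back_aux (hr : IsPM R r) (hb : IsPM (BX B X) b) {e e' : V} (hbe : ¬ X (b e))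
    {L' i j : ℕ} (hL' : Xit X r b L' e') (hij : i ≤ j)
    (hj : j < L') (h : wk r b i e = wk r b j e') (hp : Even i ↔ Even j) : e = e' := by
  obtain ⟨k, hk⟩ : ∃ k, j = k + i := ⟨j - i, by omega⟩
  have hke : Even k := by
    rw [hk, Nat.even_add] at hp
    by_cases hi : Even i
    · exact (hp.1 hi).2 hi
    · by_contra hk'
      exact hi (hp.2 ⟨fun a => absurd a hk', fun a => absurd a hi⟩)
  rw [hk, wk_add hke] at h
  have h4 := wk_inj hr hb _ h
  rcases Nat.eq_zero_or_pos k with hk0 | hk0
  · rw [hk0] at h4
    exact h4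
  · exfalso
    obtain ⟨m, rfl⟩ : ∃ m, k = m + 1 := ⟨k - 1, by omega⟩
    have hmo : Odd m := by
      rw [Nat.even_add_one] at hke
      rwa [← Nat.not_even_iff_odd]
    rw [wk_odd hmo] at h4
    apply hbe
    rw [h4, hb.inv]
    exact hL'.mem m (by omega)

theorem wlk_back (hr : IsPM R r) (hb : IsPM (BX B X) b) {e e' : V} (hbe : ¬ X (b e))
    (hbe' : ¬ X (b e')) {L L' i j : ℕ} (hL : Xit X r b L e) (hL' : Xit X r b L' e') (hi : i < L)
    (hj : j < L') (h : wk r b i e = wk r b j e') (hp : Even i ↔ Even j) : e = e' := by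
  rcases le_total i j with hij | hij
  · exact wlk_back_aux hr hb hbe hL' hij hj h hp
  · exact (wlk_back_aux hr hb hbe' hL hij hi h.symm hp.symm).symm

end Pool.Agent.H93.AHD
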